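import Pool.Agent.V8H5.QS.Defs

set_option autoImplicit false

/-! # Quasi-symmetric 3-designs with smaller intersection number 1: the equations -/

namespace Pool.Agent.V8H5.QS

open Finset

variable {P : Type} [Fintype P] [DecidableEq P]

/-- the numbers of blocks through two points, through one point, and of all blocks -/
theorem degs {𝓑 : Finset (Finset P)} {v k lam : ℕ} (hD : IsDesign 3 v k lam 𝓑) (hk : 3 ≤ k)
    (hv : 3 ≤ v) :
    ∃ l2 r : ℕ, (∀ T : Finset P, T.card = 2 → deg 𝓑 T = l2) ∧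
      (∀ T : Finset P, T.card = 1 → deg 𝓑 T = r) ∧
      (v - 2) * lam = l2 * (k - 2) ∧ (v - 1) * l2 = r * (k - 1) ∧ v * r = 𝓑.card * k := by
  have h3 : ∀ T : Finset P, T.card = 2 + 1 → deg 𝓑 T = lam := hD.cover
  have e2 := fun S hS => deg_step hD.size h3 S hS
  rw [hD.points] at e2
  have hk2 : 0 < k - 2 := by omega
  have c2 : ∀ T : Finset P, T.card = 1 + 1 → deg 𝓑 T = (v - 2) * lam / (k - 2) := by
    intro T hT
    rw [e2 T hT, Nat.mul_div_cancel _ hk2]
  have e1 := fun S hS => deg_step hD.size c2 S hS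
  rw [hD.points] at e1
  have hk1 : 0 < k - 1 := by omega
  have c1 : ∀ T : Finset P, T.card = 0 + 1 → deg 𝓑 T =
      (v - 1) * ((v - 2) * lam / (k - 2)) / (k - 1) := by
    intro T hT
    rw [e1 T hT, Nat.mul_div_cancel _ hk1]
  have e0 := deg_step hD.size c1 ∅ (by simp)
  rw [hD.points, deg_empty] at e0
  refine ⟨(v - 2) * lam / (k - 2), (v - 1) * ((v - 2) * lam / (k - 2)) / (k - 1), c2, c1, ?_, ?_, ?_⟩
  · obtain ⟨T, -, hT⟩ := Finset.exists_subset_card_eq
      (show 2 ≤ (univ : Finset P).card by rw [card_univ, hD.points]; omega)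
    have := e2 T hT
    rw [this, Nat.mul_div_cancel _ hk2]
  · obtain ⟨T, -, hT⟩ := Finset.exists_subset_card_eq
      (show 1 ≤ (univ : Finset P).card by rw [card_univ, hD.points]; omega)
    have := e1 T hT
    rw [this, Nat.mul_div_cancel _ hk1]
  · simpa using e0

/-- the sum over the blocks of a function of the size of the intersection with `B` -/
theorem sum_split {𝓑 : Finset (Finset P)} {B : Finset P} (hB : B ∈ 𝓑) {x y : ℕ} (hxy : x ≠ y)
    (h : ∀ C ∈ 𝓑, C ≠ B → (B ∩ C).card = x ∨ (B ∩ C).card = y) (g : ℕ → ℕ) :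
    ∑ C ∈ 𝓑, g (B ∩ C).card = g B.card +
      (((𝓑.erase B).filter (fun C => (B ∩ C).card = x)).card * g x +
       ((𝓑.erase B).filter (fun C => (B ∩ C).card = y)).card * g y) := by
  rw [← Finset.add_sum_erase _ _ hB, inter_self]
  congr 1
  rw [← Finset.sum_filter_add_sum_filter_not (𝓑.erase B) (fun C => (B ∩ C).card = x)]
  congr 1
  · rw [Finset.sum_congr rfl (g := fun _ => g x) (fun C hC => by rw [(mem_filter.1 hC).2]),
      Finset.sum_const, smul_eq_mul]
  · have e : (𝓑.erase B).filter (fun C => ¬ (B ∩ C).card = x) =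
        (𝓑.erase B).filter (fun C => (B ∩ C).card = y) := by
      refine Finset.filter_congr fun C hC => ?_
      rw [mem_erase] at hC
      rcases h C hC.2 hC.1 with h1 | h1
      · simp [h1, hxy]
      · simp [h1, hxy.symm]
    rw [e, Finset.sum_congr rfl (g := fun _ => g y) (fun C hC => by rw [(mem_filter.1 hC).2]),
      Finset.sum_const, smul_eq_mul]

/-- The equations for the parameters. -/
theorem equations {𝓑 : Finset (Finset P)} {v k lam y : ℕ} (hD : IsDesign 3 v k lam 𝓑)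
    (hk : 3 ≤ k) (hv : 3 ≤ v) (hy : 1 < y) {B : Finset P} (hB : B ∈ 𝓑)
    (h : ∀ C ∈ 𝓑, C ≠ B → (B ∩ C).card = 1 ∨ (B ∩ C).card = y) :
    ∃ l2 r n1 ny : ℤ,
      ((v : ℤ) - 2) * lam = l2 * (k - 2) ∧ ((v : ℤ) - 1) * l2 = r * (k - 1) ∧
      (v : ℤ) * r = 𝓑.card * k ∧ n1 + ny = 𝓑.card - 1 ∧ n1 + y * ny = k * (r - 1) ∧
      (y : ℤ) * (y - 1) * ny = k * (k - 1) * (l2 - 1) ∧
      (y : ℤ) * (y - 1) * (y - 2) * ny = k * (k - 1) * (k - 2) * (lam - 1) ∧ 0 ≤ ny := by
  obtain ⟨l2, r, h2, h1, e2, e1, e0⟩ := degs hD hk hv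
  have h0 : ∀ T : Finset P, T.card = 0 → deg 𝓑 T = 𝓑.card := by
    intro T hT
    rw [card_eq_zero.1 hT, deg_empty]
  have hxy : 1 ≠ y := by omega
  have s0 := sum_choose_inter 𝓑 B 0 _ h0
  have s1 := sum_choose_inter 𝓑 B 1 _ h1
  have s2 := sum_choose_inter 𝓑 B 2 _ h2
  have s3 := sum_choose_inter 𝓑 B 3 _ hD.cover
  rw [sum_split hB hxy h (fun n => n.choose 0)] at s0
  rw [sum_split hB hxy h (fun n => n.choose 1)] at s1
  rw [sum_split hB hxy h (fun n => n.choose 2)] at s2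
  rw [sum_split hB hxy h (fun n => n.choose 3)] at s3
  rw [hD.size B hB] at s0 s1 s2 s3
  set n1 := ((𝓑.erase B).filter (fun C => (B ∩ C).card = 1)).card
  set ny := ((𝓑.erase B).filter (fun C => (B ∩ C).card = y)).card
  have d2 : ∀ n : ℕ, (2 : ℤ) * (n.choose 2 : ℤ) = n * (n - 1) := by
    intro n
    induction n with
    | zero => simp
    | succ n ih =>
      rw [Nat.choose_succ_succ' n 1, Nat.choose_one_right]
      push_cast
      linarith
  have d3 : ∀ n : ℕ, (6 : ℤ) * (n.choose 3 : ℤ) = n * (n - 1) * (n - 2) := by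
    intro n
    induction n with
    | zero => simp
    | succ n ih =>
      rw [Nat.choose_succ_succ' n 2]
      have := d2 n
      push_cast
      linarith
  have y2 := d2 y
  have y3 := d3 y
  have k2 := d2 k
  have k3 := d3 k
  simp only [Nat.choose_zero_right, Nat.choose_one_right, Nat.choose_eq_zero_of_lt (show 1 < 2 by omega),
    Nat.choose_eq_zero_of_lt (show 1 < 3 by omega)] at s0 s1 s2 s3
  have S0 : (1 : ℤ) + (n1 * 1 + ny * 1) = 1 * 𝓑.card := by exact_mod_cast s0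
  have S1 : (k : ℤ) + (n1 * 1 + ny * y) = k * r := by exact_mod_cast s1
  have S2 : (k.choose 2 : ℤ) + (n1 * 0 + ny * y.choose 2) = k.choose 2 * l2 := by exact_mod_cast s2
  have S3 : (k.choose 3 : ℤ) + (n1 * 0 + ny * y.choose 3) = k.choose 3 * lam := by exact_mod_cast s3
  refine ⟨l2, r, n1, ny, ?_, ?_, ?_, ?_, ?_, ?_, ?_, ?_⟩
  · have : (((v - 2) * lam : ℕ) : ℤ) = ((l2 * (k - 2) : ℕ) : ℤ) := by rw [e2]
    rw [Nat.cast_mul, Nat.cast_mul, Nat.cast_sub (by omega), Nat.cast_sub (by omega)] at this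
    exact_mod_cast this
  · have : (((v - 1) * l2 : ℕ) : ℤ) = ((r * (k - 1) : ℕ) : ℤ) := by rw [e1]
    rw [Nat.cast_mul, Nat.cast_mul, Nat.cast_sub (by omega), Nat.cast_sub (by omega)] at this
    exact_mod_cast this
  · exact_mod_cast e0
  · linarith
  · linarith
  · linear_combination 2 * S2 - (ny : ℤ) * y2 + (l2 - 1) * k2
  · linear_combination 6 * S3 - (ny : ℤ) * y3 + (lam - 1) * k3
  · positivity

end Pool.Agent.V8H5.QS
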