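import Mathlib

set_option autoImplicit false

/-! # Designs: definitions and double counting -/

namespace Pool.Agent.V8H5.QS

open Finset

/-- `𝓑` is the set of blocks of a `t-(v,k,lam)` design on the finite point set `P`: there are `v`
points, every block is a set of `k` points, and every set of `t` points is contained in exactly
`lam` blocks. -/
structure IsDesign {P : Type} [Fintype P] [DecidableEq P] (t v k lam : ℕ)
    (𝓑 : Finset (Finset P)) : Prop where
  points : Fintype.card P = v
  size : ∀ B ∈ 𝓑, B.card = k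
  cover : ∀ T : Finset P, T.card = t → (𝓑.filter (fun B => T ⊆ B)).card = lam

section Count

variable {P : Type} [Fintype P] [DecidableEq P]

/-- the number of blocks containing `S` -/
def deg (𝓑 : Finset (Finset P)) (S : Finset P) : ℕ := (𝓑.filter (fun B => S ⊆ B)).card

theorem deg_empty (𝓑 : Finset (Finset P)) : deg 𝓑 ∅ = 𝓑.card := by
  simp [deg]

/-- counting the pairs of a point outside `S` and a block containing `S` and the point -/
theorem sum_deg_insert (𝓑 : Finset (Finset P)) (k : ℕ) (hk : ∀ B ∈ 𝓑, B.card = k)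
    (S : Finset P) : ∑ x ∈ Sᶜ, deg 𝓑 (insert x S) = deg 𝓑 S * (k - S.card) := by
  have h1 : ∀ x ∈ Sᶜ, deg 𝓑 (insert x S) =
      ∑ B ∈ 𝓑.filter (fun B => S ⊆ B), if x ∈ B then 1 else 0 := by
    intro x _
    rw [deg, ← Finset.card_filter, Finset.filter_filter]
    congr 1
    ext B
    simp only [mem_filter, insert_subset_iff]
    tauto
  rw [Finset.sum_congr rfl h1, Finset.sum_comm]
  have h2 : ∀ B ∈ 𝓑.filter (fun B => S ⊆ B), (∑ x ∈ Sᶜ, if x ∈ B then 1 else 0) = k - S.card := by
    intro B hB
    rw [mem_filter] at hB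
    rw [← Finset.card_filter, ← hk B hB.1, ← Finset.card_sdiff_of_subset hB.2]
    congr 1
    ext x
    simp only [mem_filter, mem_compl, mem_sdiff]
    tauto
  rw [Finset.sum_congr rfl h2, Finset.sum_const, smul_eq_mul]
  rfl

/-- if every set of `s + 1` points is in `m` blocks then every set of `s` points is in
`m (v - s) / (k - s)` blocks -/
theorem deg_step {𝓑 : Finset (Finset P)} {k s m : ℕ} (hk : ∀ B ∈ 𝓑, B.card = k)
    (h : ∀ T : Finset P, T.card = s + 1 → deg 𝓑 T = m) (S : Finset P) (hS : S.card = s) :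
    (Fintype.card P - s) * m = deg 𝓑 S * (k - s) := by
  have h1 := sum_deg_insert 𝓑 k hk S
  rw [hS] at h1
  rw [← h1]
  have h2 : ∀ x ∈ Sᶜ, deg 𝓑 (insert x S) = m := by
    intro x hx
    apply h
    rw [card_insert_of_notMem (by simpa using hx), hS]
  rw [Finset.sum_congr rfl h2, Finset.sum_const, smul_eq_mul, card_compl, hS]

/-- counting the pairs of a `j`-subset of `B` and a block containing it -/
theorem sum_choose_inter (𝓑 : Finset (Finset P)) (B : Finset P) (j m : ℕ)
    (h : ∀ T : Finset P, T.card = j → deg 𝓑 T = m) :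
    ∑ C ∈ 𝓑, (B ∩ C).card.choose j = B.card.choose j * m := by
  have h1 : ∑ T ∈ B.powersetCard j, deg 𝓑 T = B.card.choose j * m := by
    rw [Finset.sum_congr rfl (fun T hT => h T (mem_powersetCard.1 hT).2), Finset.sum_const,
      card_powersetCard, smul_eq_mul]
  rw [← h1]
  have h2 : ∀ T ∈ B.powersetCard j, deg 𝓑 T = ∑ C ∈ 𝓑, if T ⊆ C then 1 else 0 := by
    intro T _
    rw [deg, Finset.card_filter]
  rw [Finset.sum_congr rfl h2, Finset.sum_comm]
  refine Finset.sum_congr rfl fun C _ => ?_
  rw [← Finset.card_filter, ← card_powersetCard]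
  congr 1
  ext T
  simp only [mem_filter, mem_powersetCard, subset_inter_iff]
  tauto

end Count

end Pool.Agent.V8H5.QS
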