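import Mathlib

set_option autoImplicit false

/-! # Quasi-symmetric 3-designs with smaller intersection number 1: the parameters -/

namespace Pool.Agent.V8H5.QS

/-- the quadratic equation for `M = k - 1` -/
theorem quadratic {k v y lam l2 r b n1 ny : ℤ} (hk : 3 ≤ k) (hv : k < v)
    (hyk : y < k)
    (E2 : (v - 2) * lam = l2 * (k - 2)) (E1 : (v - 1) * l2 = r * (k - 1)) (E0 : v * r = b * k)
    (N0 : n1 + ny = b - 1) (N1 : n1 + y * ny = k * (r - 1))
    (N2 : y * (y - 1) * ny = k * (k - 1) * (l2 - 1))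
    (N3 : y * (y - 1) * (y - 2) * ny = k * (k - 1) * (k - 2) * (lam - 1)) :
    (y - 2) * (l2 - 1) = (k - 2) * (lam - 1) ∧
    y * (v - 2) * (k ^ 2 - k + 1 - v) = k * (k - 1) ^ 2 * (k - 2) ∧
    lam * (y - 2) * (v - 2) = (k - 2) * ((k - 2) * (lam - 1) + (y - 2)) ∧
    (y - 4) * lam * (lam - y) * (k - 1) ^ 2 - y * (k - 1) ^ 2 +
      y * (lam - 1) * (2 * lam - y) * (k - 1) + y * (lam - 1) * (y - lam - 1) = 0 := by
  have hkk : k * (k - 1) ≠ 0 := by
    apply mul_ne_zero <;> omega
  have R1 : (y - 2) * (l2 - 1) = (k - 2) * (lam - 1) := by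
    have : k * (k - 1) * ((y - 2) * (l2 - 1) - (k - 2) * (lam - 1)) = 0 := by
      linear_combination -(y - 2) * N2 + N3
    rcases mul_eq_zero.1 this with h | h
    · exact absurd h hkk
    · linarith
  have R2 : y * (k * r - k - b + 1) = k * (k - 1) * (l2 - 1) := by
    linear_combination y * N0 - y * N1 + N2
  have R3 : y * (v - 1) * (k ^ 2 - v) * l2 - y * k * (k - 1) ^ 2 =
      k ^ 2 * (k - 1) ^ 2 * l2 - k ^ 2 * (k - 1) ^ 2 := by
    linear_combination k * (k - 1) * R2 + y * (k ^ 2 - v) * E1 - (k - 1) * y * E0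
  have R4 : l2 * ((k - 2) ^ 2 - (v - 2) * (y - 2)) = (v - 2) * (k - y) := by
    linear_combination -(v - 2) * R1 - (k - 2) * E2
  have Z : y * (v - 2) * (k ^ 2 - k + 1 - v) = k * (k - 1) ^ 2 * (k - 2) := by
    have h0 : (k - y) * ((v - k) * (y * (v - 2) * (k ^ 2 - k + 1 - v) -
        k * (k - 1) ^ 2 * (k - 2))) = 0 := by
      linear_combination ((k - 2) ^ 2 - (v - 2) * (y - 2)) * R3 -
        (y * (v - 1) * (k ^ 2 - v) - k ^ 2 * (k - 1) ^ 2) * R4
    rcases mul_eq_zero.1 h0 with h | h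
    · omega
    · rcases mul_eq_zero.1 h with h | h
      · omega
      · linarith
  have E : lam * (y - 2) * (v - 2) = (k - 2) * ((k - 2) * (lam - 1) + (y - 2)) := by
    linear_combination (k - 2) * R1 + (y - 2) * E2
  refine ⟨R1, Z, E, ?_⟩
  have H : y * ((k - 2) * (lam - 1) + (y - 2)) * (lam * (y - 2) * (k ^ 2 - k - 1) -
      (k - 2) * ((k - 2) * (lam - 1) + (y - 2))) = k * (k - 1) ^ 2 * (lam ^ 2 * (y - 2) ^ 2) := by
    have h0 : (k - 2) * (y * ((k - 2) * (lam - 1) + (y - 2)) * (lam * (y - 2) * (k ^ 2 - k - 1) -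
      (k - 2) * ((k - 2) * (lam - 1) + (y - 2))) - k * (k - 1) ^ 2 * (lam ^ 2 * (y - 2) ^ 2)) = 0 := by
      linear_combination lam ^ 2 * (y - 2) ^ 2 * Z - y * (lam * (y - 2) * (k ^ 2 - k - 1) -
        lam * (y - 2) * (v - 2) - (k - 2) * ((k - 2) * (lam - 1) + (y - 2))) * E
    rcases mul_eq_zero.1 h0 with h | h
    · omega
    · linarith
  have h0 : (k - y) * ((y - 4) * lam * (lam - y) * (k - 1) ^ 2 - y * (k - 1) ^ 2 +
      y * (lam - 1) * (2 * lam - y) * (k - 1) + y * (lam - 1) * (y - lam - 1)) = 0 := by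
    linear_combination H
  rcases mul_eq_zero.1 h0 with h | h
  · omega
  · exact h

theorem case3 {lam M : ℤ} (hM : 3 ≤ M) (hlam : 1 ≤ lam)
    (Q : (3 - 4) * lam * (lam - 3) * M ^ 2 - 3 * M ^ 2 +
      3 * (lam - 1) * (2 * lam - 3) * M + 3 * (lam - 1) * (3 - lam - 1) = 0) :
    (M = 6 ∧ lam = 4) ∨ (M = 6 ∧ lam = 5) ∨ (M = 3 ∧ lam = 2) := by
  have h6 : M ≤ 6 := by
    by_contra h
    have h7 : 7 ≤ M := by omega
    obtain ⟨m, rfl⟩ : ∃ m, M = 7 + m := ⟨M - 7, by ring⟩
    have hm : 0 ≤ m := by omega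
    have hA : 0 < lam ^ 2 - 3 * lam + 3 := by nlinarith [sq_nonneg (2 * lam - 3)]
    have hB : 0 < 8 * lam ^ 2 - 27 * lam + 33 := by nlinarith [sq_nonneg (16 * lam - 27)]
    have hC : 0 < 10 * lam ^ 2 - 51 * lam + 90 := by nlinarith [sq_nonneg (20 * lam - 51)]
    have h1 : 0 ≤ (lam ^ 2 - 3 * lam + 3) * m ^ 2 := by positivity
    have h2 : 0 ≤ (8 * lam ^ 2 - 27 * lam + 33) * m := by positivity
    have e : (lam ^ 2 - 3 * lam + 3) * m ^ 2 + (8 * lam ^ 2 - 27 * lam + 33) * m +
        (10 * lam ^ 2 - 51 * lam + 90) = 0 := by linear_combination -Q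
    linarith
  interval_cases M
  · right; right
    refine ⟨rfl, ?_⟩
    have h0 : 3 * ((lam - 2) * (2 * lam + 1)) = 0 := by linear_combination Q
    have := (mul_eq_zero.1 h0).resolve_left (by norm_num)
    rcases mul_eq_zero.1 this with h | h <;> omega
  · exfalso
    have e : 5 * lam ^ 2 - 3 * lam - 18 = 0 := by linear_combination Q
    have : lam ≤ 2 := by
      by_contra h
      nlinarith
    interval_cases lam <;> omega
  · exfalso
    have e : 2 * lam ^ 2 + 9 * lam - 36 = 0 := by linear_combination Q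
    have : lam ≤ 2 := by
      by_contra h
      nlinarith
    interval_cases lam <;> omega
  · have h0 : (-3) * ((lam - 4) * (lam - 5)) = 0 := by linear_combination Q
    have := (mul_eq_zero.1 h0).resolve_left (by norm_num)
    rcases mul_eq_zero.1 this with h | h
    · left; exact ⟨rfl, by omega⟩
    · right; left; exact ⟨rfl, by omega⟩

theorem case4 {lam M : ℤ} (hM : 4 ≤ M) (hlam : 1 ≤ lam)
    (Q : (4 - 4) * lam * (lam - 4) * M ^ 2 - 4 * M ^ 2 +
      4 * (lam - 1) * (2 * lam - 4) * M + 4 * (lam - 1) * (4 - lam - 1) = 0) :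
    M = 4 ∧ lam = 3 := by
  have e : M * (2 * ((lam - 1) * (lam - 2)) - M) = (lam - 1) * (lam - 3) := by
    have h0 : 4 * (M * (2 * ((lam - 1) * (lam - 2)) - M) - (lam - 1) * (lam - 3)) = 0 := by
      linear_combination Q
    have := (mul_eq_zero.1 h0).resolve_left (by norm_num)
    linarith
  have h3 : lam ≤ 3 := by
    by_contra h
    have h4 : 4 ≤ lam := by omega
    have hpos : 0 < M * (2 * ((lam - 1) * (lam - 2)) - M) := by
      rw [e]
      apply mul_pos <;> omega
    have h5 : 0 < 2 * ((lam - 1) * (lam - 2)) - M := by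
      by_contra hn
      have := mul_nonpos_of_nonneg_of_nonpos (show 0 ≤ M by omega) (not_lt.1 hn)
      linarith
    have h6 : 0 ≤ (M - 1) * (2 * ((lam - 1) * (lam - 2)) - M - 1) := by
      apply mul_nonneg <;> omega
    nlinarith
  interval_cases lam
  · exfalso; nlinarith
  · exfalso; nlinarith
  · refine ⟨?_, rfl⟩
    have : M * (M - 4) = 0 := by linear_combination -e
    rcases mul_eq_zero.1 this with h | h <;> omega

theorem case5 {y lam M : ℤ} (hy : 5 ≤ y) (hM : y ≤ M) (hlam : 1 ≤ lam)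
    (Q : (y - 4) * lam * (lam - y) * M ^ 2 - y * M ^ 2 +
      y * (lam - 1) * (2 * lam - y) * M + y * (lam - 1) * (y - lam - 1) = 0) :
    M = y ∧ lam = y - 1 := by
  rcases lt_trichotomy lam y with h | h | h
  · obtain ⟨s, hs⟩ : ∃ s, y = lam + s := ⟨y - lam, by ring⟩
    have hs1 : 1 ≤ s := by omega
    rcases hs1.eq_or_lt with h1 | h1
    · -- s = 1
      have hl : lam = y - 1 := by omega
      refine ⟨?_, hl⟩
      have : (y - 2) ^ 2 * (M * (M - y)) = 0 := by
        rw [hl] at Q
        linear_combination -Q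
      have hy2 : (y - 2) ^ 2 ≠ 0 := by
        apply pow_ne_zero; omega
      rcases mul_eq_zero.1 this with h | h
      · exact absurd h hy2
      · rcases mul_eq_zero.1 h with h | h <;> omega
    · exfalso
      have hG : 0 ≤ lam ^ 2 * (s - 1) + lam * (s ^ 2 - 3 * s + 1) - s := by
        rcases (show (2 : ℤ) ≤ s by omega).eq_or_lt with h2 | h2
        · have hl3 : 3 ≤ lam := by omega
          rw [← h2]
          nlinarith
        · have h3 : 3 ≤ s := by omega
          have h4 : 1 ≤ s ^ 2 - 3 * s + 1 := by nlinarith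
          have h5 : 1 * (s - 1) ≤ lam ^ 2 * (s - 1) := by
            apply mul_le_mul_of_nonneg_right _ (by omega)
            nlinarith
          have h6 : 1 * 1 ≤ lam * (s ^ 2 - 3 * s + 1) := by
            apply mul_le_mul hlam h4 (by norm_num) (by omega)
          linarith
      have hB : 0 < y ^ 2 + y * (lam ^ 2 * (s - 1) + lam * (s ^ 2 - 3 * s + 1) - s) -
          (lam - 1) * (s - 1) := by
        have h7 : 0 ≤ y * (lam ^ 2 * (s - 1) + lam * (s ^ 2 - 3 * s + 1) - s) :=
          mul_nonneg (by omega) hG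
        have h8 : (lam - 1) * (s - 1) < y ^ 2 := by
          rw [hs]
          nlinarith
        linarith
      have hM0 : 0 < M := by omega
      have hc : 0 ≤ y + (y - 4) * lam * s := by
        have : 0 ≤ (y - 4) * lam * s := by
          apply mul_nonneg (mul_nonneg _ _) <;> omega
        omega
      have hf : (y + (y - 4) * lam * s) * M ^ 2 - y * (lam - 1) * (lam - s) * M -
          y * (lam - 1) * (s - 1) = 0 := by
        have e2 : lam - y = -s := by omega
        have e3 : 2 * lam - y = lam - s := by omega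
        have e4 : y - lam - 1 = s - 1 := by omega
        rw [e2, e3, e4] at Q
        linear_combination -Q
      have h9 : (y + (y - 4) * lam * s) * (y * M) ≤ (y + (y - 4) * lam * s) * M ^ 2 := by
        apply mul_le_mul_of_nonneg_left _ hc
        nlinarith
      have h10 : y * ((lam - 1) * (s - 1)) ≤ M * ((lam - 1) * (s - 1)) := by
        apply mul_le_mul_of_nonneg_right hM
        apply mul_nonneg <;> omega
      have h11 : 0 < M * (y ^ 2 + y * (lam ^ 2 * (s - 1) + lam * (s ^ 2 - 3 * s + 1) - s) -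
          (lam - 1) * (s - 1)) := mul_pos hM0 hB
      have h12 : (y + (y - 4) * lam * s) * (y * M) - y * (lam - 1) * (lam - s) * M -
          M * ((lam - 1) * (s - 1)) = M * (y ^ 2 + y * (lam ^ 2 * (s - 1) +
          lam * (s ^ 2 - 3 * s + 1) - s) - (lam - 1) * (s - 1)) := by
        rw [hs]; ring
      nlinarith
  · exfalso
    subst h
    have e : M * (lam * (lam - 1) - M) = lam - 1 := by
      have h0 : lam * (M * (lam * (lam - 1) - M) - (lam - 1)) = 0 := by linear_combination Q
      rcases mul_eq_zero.1 h0 with h | h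
      · omega
      · linarith
    have hpos : 0 < M * (lam * (lam - 1) - M) := by rw [e]; omega
    have h5 : 0 < lam * (lam - 1) - M := by
      by_contra hn
      have := mul_nonpos_of_nonneg_of_nonpos (show 0 ≤ M by omega) (not_lt.1 hn)
      linarith
    have h6 : 0 ≤ (M - 1) * (lam * (lam - 1) - M - 1) := by
      apply mul_nonneg <;> omega
    nlinarith
  · exfalso
    have h1 : 1 ≤ lam - y := by omega
    have hM2 : 0 < M ^ 2 := pow_pos (by omega) 2
    have h2 : (y - 4) * (y + 1) ≤ (y - 4) * lam * (lam - y) := by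
      have : (y + 1) * 1 ≤ lam * (lam - y) := by
        apply mul_le_mul (by omega) h1 (by norm_num) (by omega)
      nlinarith
    have h3 : (y - 4) * (y + 1) * M ^ 2 ≤ (y - 4) * lam * (lam - y) * M ^ 2 :=
      mul_le_mul_of_nonneg_right h2 hM2.le
    have h4 : y < (y - 4) * (y + 1) := by nlinarith
    have h5 : y * M ^ 2 < (y - 4) * (y + 1) * M ^ 2 := mul_lt_mul_of_pos_right h4 hM2
    have h6 : (lam + 1 - y) * 1 ≤ (2 * lam - y) * M := by
      apply mul_le_mul (by omega) (by omega) (by norm_num) (by omega)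
    have h7 : 0 ≤ y * (lam - 1) * ((2 * lam - y) * M - (lam + 1 - y)) := by
      apply mul_nonneg (mul_nonneg (by omega) (by omega)) (by linarith)
    nlinarith

/-- The parameters of a quasi-symmetric 3-design with smaller intersection number 1. -/
theorem numeric {k v y lam l2 r b n1 ny : ℤ} (hk : 3 ≤ k) (hv : k < v) (hy : 2 ≤ y)
    (hyk : y < k) (hv2 : 2 * k - 1 ≤ v) (hlam : 1 ≤ lam)
    (E2 : (v - 2) * lam = l2 * (k - 2)) (E1 : (v - 1) * l2 = r * (k - 1)) (E0 : v * r = b * k)
    (N0 : n1 + ny = b - 1) (N1 : n1 + y * ny = k * (r - 1))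
    (N2 : y * (y - 1) * ny = k * (k - 1) * (l2 - 1))
    (N3 : y * (y - 1) * (y - 2) * ny = k * (k - 1) * (k - 2) * (lam - 1)) :
    (k = 3 ∧ v = 5 ∧ lam = 1 ∧ y = 2) ∨ (k = 7 ∧ v = 22 ∧ lam = 4 ∧ y = 3) ∨
      (k = 7 ∧ v = 23 ∧ lam = 5 ∧ y = 3) := by
  obtain ⟨R1, Z, E, Q⟩ := quadratic hk hv hyk E2 E1 E0 N0 N1 N2 N3
  obtain ⟨M, hM⟩ : ∃ M, M = k - 1 := ⟨_, rfl⟩
  have hk' : k = M + 1 := by omega
  rcases (show y = 2 ∨ y = 3 ∨ y = 4 ∨ 5 ≤ y by omega) with h | h | h | h
  · left
    subst h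
    have hl : lam = 1 := by
      have : (k - 2) * (lam - 1) = 0 := by linarith
      rcases mul_eq_zero.1 this with h | h <;> omega
    have h4 : k ≤ 3 := by
      by_contra h
      have h5 : 4 ≤ k := by omega
      have h6 : 0 ≤ ((v - 2) - (k ^ 2 - k + 1 - v)) ^ 2 := sq_nonneg _
      have h7 : 2 * (k * (k - 1) ^ 2 * (k - 2)) ≤ (k ^ 2 - k - 1) ^ 2 := by
        rw [← Z]
        nlinarith
      have h8 : 0 < k * (k - 1) * ((k - 2) * (k - 3)) - 1 := by
        have : 4 * 3 ≤ k * (k - 1) := by nlinarith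
        have : 2 * 1 ≤ (k - 2) * (k - 3) := by nlinarith
        nlinarith
      nlinarith
    have hk3 : k = 3 := by omega
    subst hk3
    have h0 : (-2) * ((v - 5) * (v - 4)) = 0 := by linear_combination Z
    have := (mul_eq_zero.1 h0).resolve_left (by norm_num)
    rcases mul_eq_zero.1 this with h | h
    · exact ⟨rfl, by omega, hl, rfl⟩
    · omega
  · subst h
    rw [← hM] at Q
    rcases case3 (by omega) hlam Q with ⟨h1, h2⟩ | ⟨h1, h2⟩ | ⟨h1, h2⟩
    · right; left
      subst h2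
      have hk7 : k = 7 := by omega
      subst hk7
      refine ⟨rfl, by omega, rfl, rfl⟩
    · right; right
      subst h2
      have hk7 : k = 7 := by omega
      subst hk7
      refine ⟨rfl, by omega, rfl, rfl⟩
    · subst h2
      have hk4 : k = 4 := by omega
      subst hk4
      omega
  · subst h
    rw [← hM] at Q
    obtain ⟨h1, h2⟩ := case4 (by omega) hlam Q
    subst h2
    have hk4 : k = 5 := by omega
    subst hk4
    omega
  · rw [← hM] at Q
    obtain ⟨h1, h2⟩ := case5 h (by omega) hlam Q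
    have hk4 : k = y + 1 := by omega
    subst hk4
    rw [h2] at E
    have : (y - 1) * (y - 2) * (v - 2 - y) = 0 := by linear_combination E
    rcases mul_eq_zero.1 this with h3 | h3
    · rcases mul_eq_zero.1 h3 with h3 | h3 <;> omega
    · omega

end Pool.Agent.V8H5.QS
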