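import Pool.Agent.V8H5.QS.Unique
import Pool.Agent.V8H5.QS.Count
import Pool.Agent.V8H5.QS.Numeric

set_option autoImplicit false

/-! # Quasi-symmetric 3-designs with smaller intersection number 1 -/

namespace Pool.Agent.V8H5.QS

open Finset

/-- the blocks of the residual of `W` at the point `p`: the points are those different from `p`,
the blocks are the blocks of `W` which miss `p` -/
def residual {Q : Type} [Fintype Q] [DecidableEq Q] (W : Finset (Finset Q)) (p : Q) :
    Finset (Finset {x : Q // x ≠ p}) :=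
  univ.filter (fun B => B.map (Function.Embedding.subtype (fun x => x ≠ p)) ∈ W)

/-- the block sets `𝓑` and `𝓒` are isomorphic: a bijection of the points takes the one to the
other -/
def Isomorphic {P Q : Type} (𝓑 : Finset (Finset P)) (𝓒 : Finset (Finset Q)) : Prop :=
  ∃ e : P ≃ Q, ∀ B : Finset P, B ∈ 𝓑 ↔ B.map e.toEmbedding ∈ 𝓒

/-- the intersection numbers: the sizes of the intersections of two distinct blocks -/
def interNumbers {P : Type} [DecidableEq P] (𝓑 : Finset (Finset P)) : Set ℕ :=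
  {n | ∃ B ∈ 𝓑, ∃ C ∈ 𝓑, B ≠ C ∧ (B ∩ C).card = n}

section Main

variable {P Q : Type} [Fintype P] [DecidableEq P] [Fintype Q] [DecidableEq Q]

/-- two Steiner systems with marked points are isomorphic -/
theorem marked_iso {𝓥 : Finset (Finset P)} {𝓦 : Finset (Finset Q)} (hV : IsDesign 4 23 7 1 𝓥)
    (hW : IsDesign 4 23 7 1 𝓦) (p : P) (q : Q) : ∃ e : P ≃ Q, e p = q ∧
      ∀ B : Finset P, B ∈ 𝓥 ↔ B.map e.toEmbedding ∈ 𝓦 := by
  obtain ⟨e, e0, he⟩ := exists_iso hV p
  obtain ⟨f, f0, hf⟩ := exists_iso hW q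
  refine ⟨e.symm.trans f, ?_, ?_⟩
  · rw [Equiv.trans_apply, ← e0, Equiv.symm_apply_apply, f0]
  · intro B
    have h1 : B.map (e.symm.trans f).toEmbedding =
        (B.map e.symm.toEmbedding).map f.toEmbedding := by
      rw [Finset.map_map]
      rfl
    rw [h1, ← hf, he, map_symm_map]

theorem residual_iso {𝓑 : Finset (Finset P)} {W : Finset (Finset Q)} (hD : IsDesign 3 22 7 4 𝓑)
    (hint : ∀ B ∈ 𝓑, ∀ C ∈ 𝓑, B ≠ C → (B ∩ C).card = 1 ∨ (B ∩ C).card = 3)
    (hW : IsDesign 4 23 7 1 W) (p : Q) : Isomorphic 𝓑 (residual W p) := by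
  obtain ⟨V, hV, hVB⟩ := extend hD hint
  obtain ⟨e, e0, he⟩ := marked_iso hV hW none p
  have hne : ∀ x : P, e (some x) ≠ p := by
    intro x h
    rw [← e0] at h
    exact absurd (e.injective h) (by simp)
  let f : P → {x : Q // x ≠ p} := fun x => ⟨e (some x), hne x⟩
  have hf : Function.Bijective f := by
    constructor
    · intro x y hxy
      have h1 : e (some x) = e (some y) := congrArg Subtype.val hxy
      exact Option.some_injective _ (e.injective h1)
    · rintro ⟨y, hy⟩
      have h1 : e.symm y ≠ none := by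
        intro h
        apply hy
        rw [← e0, ← h, Equiv.apply_symm_apply]
      obtain ⟨x, hx⟩ := Option.ne_none_iff_exists'.1 h1
      refine ⟨x, Subtype.ext ?_⟩
      show e (some x) = y
      rw [← hx, Equiv.apply_symm_apply]
  refine ⟨Equiv.ofBijective f hf, fun B => ?_⟩
  rw [residual, mem_filter, hVB, he]
  simp only [mem_univ, true_and]
  rw [Finset.map_map, Finset.map_map]
  rfl

/-- the classification -/
theorem classify {v k lam y : ℕ} {𝓑 : Finset (Finset P)} (hk : 3 ≤ k) (hv : k < v) (hy : 1 < y)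
    (hD : IsDesign 3 v k lam 𝓑) (hI : interNumbers 𝓑 = {1, y}) {W : Finset (Finset Q)}
    (hW : IsDesign 4 23 7 1 W) :
    Isomorphic 𝓑 W ∨ (∀ p : Q, Isomorphic 𝓑 (residual W p)) ∨
      (k = 3 ∧ v = 5 ∧ 𝓑 = (univ : Finset P).powersetCard 3) := by
  have hint : ∀ B ∈ 𝓑, ∀ C ∈ 𝓑, B ≠ C → (B ∩ C).card = 1 ∨ (B ∩ C).card = y := by
    intro B hB C hC hne
    have h1 : (B ∩ C).card ∈ interNumbers 𝓑 := ⟨B, hB, C, hC, hne, rfl⟩
    rw [hI] at h1
    exact h1
  obtain ⟨B, hB, C, hC, hBC, h1⟩ : (1 : ℕ) ∈ interNumbers 𝓑 := by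
    rw [hI]
    exact Or.inl rfl
  obtain ⟨B', hB', C', hC', hBC', hy'⟩ : y ∈ interNumbers 𝓑 := by
    rw [hI]
    exact Or.inr rfl
  have hv2 : 2 * k - 1 ≤ v := by
    have h2 := card_union_add_card_inter B C
    rw [hD.size B hB, hD.size C hC, h1] at h2
    have h3 := card_le_univ (B ∪ C)
    rw [hD.points] at h3
    omega
  have hyk : y < k := by
    by_contra hcon
    have h2 : B' ∩ C' = B' := eq_of_subset_of_card_le inter_subset_left (by
      rw [hy', hD.size B' hB']
      omega)
    have h3 : B' ∩ C' = C' := eq_of_subset_of_card_le inter_subset_right (by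
      rw [hy', hD.size C' hC']
      omega)
    exact hBC' (h2.symm.trans h3)
  have hlam : 1 ≤ lam := by
    obtain ⟨T, hT, hT3⟩ := Finset.exists_subset_card_eq (show 3 ≤ B.card by rw [hD.size B hB]; omega)
    rw [← hD.cover T hT3]
    exact Finset.card_pos.2 ⟨B, mem_filter.2 ⟨hB, hT⟩⟩
  obtain ⟨l2, r, n1, ny, E2, E1, E0, N0, N1, N2, N3, hny⟩ :=
    equations hD hk (by omega) hy hB (fun D hDm hne => hint B hB D hDm hne.symm)
  rcases numeric (by exact_mod_cast hk) (by exact_mod_cast hv) (by exact_mod_cast hy)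
    (by exact_mod_cast hyk) (by omega) (by exact_mod_cast hlam) E2 E1 E0 N0 N1 N2 N3 with
    ⟨c1, c2, c3, c4⟩ | ⟨c1, c2, c3, c4⟩ | ⟨c1, c2, c3, c4⟩
  · -- the complete design
    have d1 : k = 3 := by exact_mod_cast c1
    have d2 : v = 5 := by exact_mod_cast c2
    have d3 : lam = 1 := by exact_mod_cast c3
    subst d1 d2 d3
    right; right
    refine ⟨rfl, rfl, ?_⟩
    ext T
    rw [mem_powersetCard]
    constructor
    · intro hT
      exact ⟨subset_univ _, hD.size T hT⟩
    · rintro ⟨-, hT⟩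
      obtain ⟨D, h2, h3, -⟩ := exists_block hD T hT
      have h4 : T = D := eq_of_subset_of_card_le h3 (by rw [hD.size D h2, hT])
      rw [h4]
      exact h2
  · have d1 : k = 7 := by exact_mod_cast c1
    have d2 : v = 22 := by exact_mod_cast c2
    have d3 : lam = 4 := by exact_mod_cast c3
    have d4 : y = 3 := by exact_mod_cast c4
    subst d1 d2 d3 d4
    right; left
    exact fun p => residual_iso hD hint hW p
  · have d1 : k = 7 := by exact_mod_cast c1
    have d2 : v = 23 := by exact_mod_cast c2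
    have d3 : lam = 5 := by exact_mod_cast c3
    have d4 : y = 3 := by exact_mod_cast c4
    subst d1 d2 d3 d4
    left
    have hb : 𝓑.card = 253 := by
      push_cast at E2 E1 E0
      omega
    have hS : IsDesign 4 23 7 1 𝓑 := by
      apply steiner_of_card hD.points hD.size
      · intro X hX Y hY hne
        rcases hint X hX Y hY hne with h | h <;> omega
      · rw [hb]
        decide
    obtain ⟨p⟩ : Nonempty P := by
      rw [← Fintype.card_pos_iff, hD.points]
      norm_num
    obtain ⟨q⟩ : Nonempty Q := by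
      rw [← Fintype.card_pos_iff, hW.points]
      norm_num
    obtain ⟨e, -, he⟩ := marked_iso hS hW p q
    exact ⟨e, he⟩

end Main

end Pool.Agent.V8H5.QS
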