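import Pool.Agent.V8H5.QS.Mask

set_option autoImplicit false

/-! # Naming the points of a Steiner system `S(4,7,23)` -/

namespace Pool.Agent.V8H5.QS

open Finset

/-- the fifteen partitions of `{1,…,6}` in three pairs, as involutions -/
def part : Fin 15 → Fin 7 → Fin 7 := ![
  ![0, 2, 1, 4, 3, 6, 5], ![0, 2, 1, 5, 6, 3, 4], ![0, 2, 1, 6, 5, 4, 3],
  ![0, 4, 3, 2, 1, 6, 5], ![0, 5, 3, 2, 6, 1, 4], ![0, 6, 3, 2, 5, 4, 1],
  ![0, 3, 4, 1, 2, 6, 5], ![0, 5, 4, 6, 2, 1, 3], ![0, 6, 4, 5, 2, 3, 1],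
  ![0, 3, 5, 1, 6, 2, 4], ![0, 4, 5, 6, 1, 2, 3], ![0, 6, 5, 4, 3, 2, 1],
  ![0, 3, 6, 1, 5, 4, 2], ![0, 4, 6, 5, 1, 3, 2], ![0, 5, 6, 4, 3, 1, 2]]

/-- a second pair of the partition starts here -/
def third : Fin 15 → Fin 7 := ![3, 3, 3, 2, 2, 2, 2, 2, 2, 2, 2, 2, 2, 2, 2]

section Naming

variable {P : Type} [Fintype P] [DecidableEq P] {𝓦 : Finset (Finset P)}

theorem card_four {a b c d : P} (h1 : a ≠ b) (h2 : a ≠ c) (h3 : a ≠ d) (h4 : b ≠ c) (h5 : b ≠ d)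
    (h6 : c ≠ d) : ({a, b, c, d} : Finset P).card = 4 := by
  rw [card_insert_of_notMem, card_insert_of_notMem, card_insert_of_notMem, card_singleton]
  · simpa using h6
  · simp [h4, h5]
  · simp [h1, h2, h3]

/-- two different blocks have no four common points -/
theorem four_common (hD : IsDesign 4 23 7 1 𝓦) {B C : Finset P} (hB : B ∈ 𝓦) (hC : C ∈ 𝓦)
    {a b c d : P} (h1 : a ≠ b) (h2 : a ≠ c) (h3 : a ≠ d) (h4 : b ≠ c) (h5 : b ≠ d)
    (h6 : c ≠ d) (hBs : a ∈ B ∧ b ∈ B ∧ c ∈ B ∧ d ∈ B) (hCs : a ∈ C ∧ b ∈ C ∧ c ∈ C ∧ d ∈ C) :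
    B = C := by
  by_contra hne
  have h7 := inter_lt hD hB hC hne
  have h8 : ({a, b, c, d} : Finset P) ⊆ B ∩ C := by
    intro x hx
    simp only [mem_insert, mem_singleton] at hx
    rw [mem_inter]
    rcases hx with rfl | rfl | rfl | rfl <;> tauto
  have h9 := card_le_card h8
  rw [card_four h1 h2 h3 h4 h5 h6] at h9
  omega

/-- two blocks with two common points have a third one -/
theorem third_common (hD : IsDesign 4 23 7 1 𝓦) {B C : Finset P} (hB : B ∈ 𝓦) (hC : C ∈ 𝓦)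
    (hne : C ≠ B) {a b : P} (h1 : a ≠ b) (ha : a ∈ B ∧ a ∈ C) (hb : b ∈ B ∧ b ∈ C) :
    ∃ x, x ≠ a ∧ x ≠ b ∧ x ∈ B ∧ x ∈ C := by
  have h2 : ({a, b} : Finset P) ⊆ B ∩ C := by
    intro x hx
    simp only [mem_insert, mem_singleton] at hx
    rw [mem_inter]
    rcases hx with rfl | rfl <;> tauto
  have h3 : ({a, b} : Finset P).card = 2 := card_pair h1
  have h4 := card_le_card h2
  have h5 : (B ∩ C).card = 3 := by
    rcases inter_one_three hD hB hC hne with h | h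
    · omega
    · exact h
  have h6 : ∃ x ∈ B ∩ C, x ∉ ({a, b} : Finset P) := by
    by_contra hcon
    push Not at hcon
    have := card_le_card (show B ∩ C ⊆ {a, b} from fun x hx => hcon x hx)
    omega
  obtain ⟨x, hx, hx'⟩ := h6
  rw [mem_inter] at hx
  simp only [mem_insert, mem_singleton, not_or] at hx'
  exact ⟨x, hx'.1, hx'.2, hx.1, hx.2⟩

variable (hD : IsDesign 4 23 7 1 𝓦) {g : Fin 7 → P} (hg : Function.Injective g)
  (hB : univ.image g ∈ 𝓦) {q : P} (hq : ∀ i, q ≠ g i)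

include hD hg hB hq

/-- the block through `g 0`, `q`, `g i`, `g j` -/
theorem exists_D : ∃ D : Fin 7 → Fin 7 → Finset P, ∀ i j, i ≠ 0 → j ≠ 0 → i ≠ j →
    D i j ∈ 𝓦 ∧ g 0 ∈ D i j ∧ q ∈ D i j ∧ g i ∈ D i j ∧ g j ∈ D i j := by
  have h : ∀ i j : Fin 7, ∃ B : Finset P, i ≠ 0 → j ≠ 0 → i ≠ j →
      B ∈ 𝓦 ∧ g 0 ∈ B ∧ q ∈ B ∧ g i ∈ B ∧ g j ∈ B := by
    intro i j
    by_cases hi : i ≠ 0 ∧ j ≠ 0 ∧ i ≠ j
    · obtain ⟨B, h1, h2, -⟩ := exists_block hD ({g 0, q, g i, g j} : Finset P)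
        (card_four (hq 0).symm (hg.ne hi.1.symm) (hg.ne hi.2.1.symm) (hq i) (hq j)
          (hg.ne hi.2.2))
      refine ⟨B, fun _ _ _ => ⟨h1, h2 ?_, h2 ?_, h2 ?_, h2 ?_⟩⟩ <;> simp
    · exact ⟨∅, fun h1 h2 h3 => absurd ⟨h1, h2, h3⟩ hi⟩
  choose D hD' using h
  exact ⟨D, hD'⟩

variable {D : Fin 7 → Fin 7 → Finset P} (hDD : ∀ i j, i ≠ 0 → j ≠ 0 → i ≠ j →
    D i j ∈ 𝓦 ∧ g 0 ∈ D i j ∧ q ∈ D i j ∧ g i ∈ D i j ∧ g j ∈ D i j)

include hDD

omit hB in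
theorem D_symm {i j : Fin 7} (hi : i ≠ 0) (hj : j ≠ 0) (hij : i ≠ j) : D i j = D j i := by
  obtain ⟨h1, h2, h3, h4, h5⟩ := hDD i j hi hj hij
  obtain ⟨k1, k2, k3, k4, k5⟩ := hDD j i hj hi hij.symm
  exact four_common hD h1 k1 (hq 0).symm (hg.ne hi.symm) (hg.ne hj.symm) (hq i) (hq j)
    (hg.ne hij) ⟨h2, h3, h4, h5⟩ ⟨k2, k3, k5, k4⟩

theorem D_B {i j k : Fin 7} (hi : i ≠ 0) (hj : j ≠ 0) (hij : i ≠ j) (hk : g k ∈ D i j) :
    k = 0 ∨ k = i ∨ k = j := by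
  by_contra hcon
  push Not at hcon
  obtain ⟨h1, h2, h3, h4, h5⟩ := hDD i j hi hj hij
  have h6 : D i j = univ.image g :=
    four_common hD h1 hB (hg.ne hi.symm) (hg.ne hj.symm) (hg.ne hcon.1.symm) (hg.ne hij)
      (hg.ne hcon.2.1.symm) (hg.ne hcon.2.2.symm) ⟨h2, h4, h5, hk⟩ (by simp)
  rw [h6] at h3
  simp only [mem_image, mem_univ, true_and] at h3
  obtain ⟨a, ha⟩ := h3
  exact hq a ha.symm

theorem D_share {i j k : Fin 7} (hi : i ≠ 0) (hj : j ≠ 0) (hk : k ≠ 0) (hij : i ≠ j)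
    (hik : i ≠ k) (hjk : j ≠ k) {x : P} (hx : x ∈ D i j) (hx' : x ∈ D i k) :
    x = q ∨ ∃ a, x = g a := by
  by_contra hcon
  push Not at hcon
  obtain ⟨h1, h2, h3, h4, h5⟩ := hDD i j hi hj hij
  obtain ⟨k1, k2, k3, k4, k5⟩ := hDD i k hi hk hik
  have h6 : D i j = D i k :=
    four_common hD h1 k1 (hq 0).symm (hg.ne hi.symm) (hcon.2 0).symm (hq i) hcon.1.symm
      (hcon.2 i).symm ⟨h2, h3, h4, hx⟩ ⟨k2, k3, k4, hx'⟩
  rw [← h6] at k5
  rcases D_B hD hg hB hq hDD hi hj hij k5 with h | h | h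
  · exact hk h
  · exact hik h.symm
  · exact hjk h.symm

theorem D_meet {i j k l : Fin 7} (hi : i ≠ 0) (hj : j ≠ 0) (hk : k ≠ 0) (hl : l ≠ 0)
    (hij : i ≠ j) (hik : i ≠ k) (hil : i ≠ l) (hjk : j ≠ k) (hjl : j ≠ l) (hkl : k ≠ l) :
    ∃ x, x ∈ D i j ∧ x ∈ D k l ∧ x ≠ q ∧ ∀ a, x ≠ g a := by
  obtain ⟨h1, h2, h3, h4, h5⟩ := hDD i j hi hj hij
  obtain ⟨k1, k2, k3, k4, k5⟩ := hDD k l hk hl hkl
  have hne : D k l ≠ D i j := by
    intro h
    rw [← h] at h4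
    rcases D_B hD hg hB hq hDD hk hl hkl h4 with h | h | h
    · exact hi h
    · exact hik h
    · exact hil h
  obtain ⟨x, x1, x2, x3, x4⟩ := third_common hD h1 k1 hne (hq 0).symm ⟨h2, k2⟩ ⟨h3, k3⟩
  refine ⟨x, x3, x4, x2, ?_⟩
  rintro a rfl
  have ha : a ≠ 0 := by
    rintro rfl
    exact x1 rfl
  rcases D_B hD hg hB hq hDD hi hj hij x3 with h | h | h
  · exact ha h
  · rcases D_B hD hg hB hq hDD hk hl hkl x4 with h' | h' | h'
    · exact ha h'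
    · exact hik (h.symm.trans h')
    · exact hil (h.symm.trans h')
  · rcases D_B hD hg hB hq hDD hk hl hkl x4 with h' | h' | h'
    · exact ha h'
    · exact hjk (h.symm.trans h')
    · exact hjl (h.symm.trans h')

theorem D_cover {x : P} (hx : x ≠ q) (hx' : ∀ a, x ≠ g a) {m : Fin 7} (hm : m ≠ 0) :
    ∃ n, n ≠ 0 ∧ m ≠ n ∧ x ∈ D m n := by
  obtain ⟨C, h1, h2, -⟩ := exists_block hD ({g 0, q, g m, x} : Finset P)
    (card_four (hq 0).symm (hg.ne hm.symm) (hx' 0).symm (hq m) hx.symm (hx' m).symm)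
  have c0 : g 0 ∈ C := h2 (by simp)
  have cq : q ∈ C := h2 (by simp)
  have cm : g m ∈ C := h2 (by simp)
  have cx : x ∈ C := h2 (by simp)
  have hne : univ.image g ≠ C := by
    intro h
    rw [← h] at cq
    simp only [mem_image, mem_univ, true_and] at cq
    obtain ⟨a, ha⟩ := cq
    exact hq a ha.symm
  obtain ⟨y, y1, y2, y3, y4⟩ := third_common hD h1 hB hne (hg.ne hm.symm) ⟨c0, by simp⟩
    ⟨cm, by simp⟩
  simp only [mem_image, mem_univ, true_and] at y4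
  obtain ⟨n, rfl⟩ := y4
  have hn0 : n ≠ 0 := by
    rintro rfl
    exact y1 rfl
  have hmn : m ≠ n := by
    rintro rfl
    exact y2 rfl
  obtain ⟨k1, k2, k3, k4, k5⟩ := hDD m n hm hn0 hmn
  have h6 : C = D m n := four_common hD h1 k1 (hq 0).symm (hg.ne hm.symm) (hg.ne hn0.symm) (hq m)
    (hq n) (hg.ne hmn) ⟨c0, cq, cm, y3⟩ ⟨k2, k3, k4, k5⟩
  exact ⟨n, hn0, hmn, h6 ▸ cx⟩

theorem exists_h : ∃ h : Fin 15 → P, ∀ c, h c ≠ q ∧ (∀ a, h c ≠ g a) ∧
    ∀ m, m ≠ 0 → h c ∈ D m (part c m) := by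
  have key : ∀ c : Fin 15, ∃ x : P, x ≠ q ∧ (∀ a, x ≠ g a) ∧
      ∀ m, m ≠ 0 → x ∈ D m (part c m) := by
    intro c
    have t1 : ∀ c : Fin 15, part c 1 ≠ 0 ∧ third c ≠ 0 ∧ part c (third c) ≠ 0 ∧ 1 ≠ part c 1 ∧
        1 ≠ third c ∧ 1 ≠ part c (third c) ∧ part c 1 ≠ third c ∧ part c 1 ≠ part c (third c) ∧
        third c ≠ part c (third c) := by
      decide +kernel
    obtain ⟨u1, u2, u3, u4, u5, u6, u7, u8, u9⟩ := t1 c
    obtain ⟨x, x1, x2, x3, x4⟩ := D_meet hD hg hB hq hDD (i := 1) (by decide) u1 u2 u3 u4 u5 u6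
      u7 u8 u9
    refine ⟨x, x3, x4, ?_⟩
    have t2 : ∀ c : Fin 15, ∀ a : Fin 7, a = 1 ∨ a = part c 1 ∨ a = third c ∨
        a = part c (third c) → part c a = if a = 1 then part c 1 else if a = part c 1 then 1 else
          if a = third c then part c (third c) else third c := by
      decide +kernel
    have four : ∀ a : Fin 7, a = 1 ∨ a = part c 1 ∨ a = third c ∨ a = part c (third c) →
        x ∈ D a (part c a) := by
      intro a ha
      have h := t2 c a ha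
      rcases ha with rfl | rfl | rfl | rfl
      · exact x1
      · rw [if_neg u4.symm, if_pos rfl] at h
        rw [h, ← D_symm hD hg hq hDD (by decide) u1 u4]
        exact x1
      · exact x2
      · rw [if_neg u6.symm, if_neg u8.symm, if_neg u9.symm] at h
        rw [h, ← D_symm hD hg hq hDD u2 u3 u9]
        exact x2
    have t3 : ∀ c : Fin 15, ∀ m n : Fin 7, m ≠ 0 → n ≠ 0 → m ≠ n → (n = part c m) ∨
        (n = 1 ∨ n = part c 1 ∨ n = third c ∨ n = part c (third c)) ∨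
        (m = 1 ∨ m = part c 1 ∨ m = third c ∨ m = part c (third c)) := by
      decide +kernel
    have t4 : ∀ c : Fin 15, ∀ m : Fin 7, m ≠ 0 → part c m ≠ 0 ∧ part c m ≠ m ∧
        part c (part c m) = m := by
      decide +kernel
    intro m hm
    obtain ⟨n, n1, n2, n3⟩ := D_cover hD hg hB hq hDD x3 x4 hm
    rcases t3 c m n hm n1 n2 with h | h | h
    · rw [← h]
      exact n3
    · by_cases hmn : n = part c m
      · rw [← hmn]
        exact n3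
      · exfalso
        have n4 := four n h
        rw [D_symm hD hg hq hDD hm n1 n2] at n3
        have hne : m ≠ part c n := by
          intro h'
          apply hmn
          rw [h', (t4 c n n1).2.2]
        rcases D_share hD hg hB hq hDD n1 hm (t4 c n n1).1 n2.symm (t4 c n n1).2.1.symm hne n3 n4
          with h' | ⟨a, h'⟩
        · exact x3 h'
        · exact x4 a h'
    · exact four m h
  choose h hh using key
  exact ⟨h, hh⟩

end Naming

end Pool.Agent.V8H5.QS
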