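import Pool.Agent.V8H5.QS.Odd

set_option autoImplicit false

/-! # Subsets of `Fin 23` coded by numbers -/

namespace Pool.Agent.V8H5.QS

open Finset

/-- the subset of `Fin 23` coded by the number `m`: the places of its binary digits `1` -/
def toSet (m : ℕ) : Finset (Fin 23) := univ.filter (fun i => m.testBit i.val = true)

theorem mem_toSet {m : ℕ} {i : Fin 23} : i ∈ toSet m ↔ m.testBit i.val = true := by
  simp [toSet]

theorem toSet_xor (a b : ℕ) : toSet (a ^^^ b) = symmDiff (toSet a) (toSet b) := by
  ext i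
  rw [mem_toSet, mem_symmDiff, mem_toSet, mem_toSet, Nat.testBit_xor]
  cases a.testBit i.val <;> cases b.testBit i.val <;> simp

theorem toSet_and (a b : ℕ) : toSet (a &&& b) = toSet a ∩ toSet b := by
  ext i
  rw [mem_toSet, mem_inter, mem_toSet, mem_toSet, Nat.testBit_and]
  cases a.testBit i.val <;> cases b.testBit i.val <;> simp

/-- the number of ones among the last `n` binary digits -/
def pc : ℕ → ℕ → ℕ
  | 0, _ => 0
  | n + 1, m => m % 2 + pc n (m / 2)

theorem card_pc (n : ℕ) : ∀ m : ℕ,
    (univ.filter (fun i : Fin n => m.testBit i.val = true)).card = pc n m := by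
  induction n with
  | zero => intro m; simp [pc]
  | succ n ih =>
    intro m
    rw [Fin.card_filter_univ_succ]
    have h1 : (univ.filter (fun x : Fin n => m.testBit x.succ.val = true)).card =
        pc n (m / 2) := by
      rw [← ih (m / 2)]
      congr 1
      ext i
      simp [Nat.testBit_succ]
    rw [h1, pc]
    have h2 : m.testBit ((0 : Fin (n + 1)).val) = decide (m % 2 = 1) := by
      simp [Nat.testBit_zero]
    rw [h2]
    rcases Nat.mod_two_eq_zero_or_one m with h | h <;> simp [h, add_comm]

theorem card_toSet (m : ℕ) : (toSet m).card = pc 23 m := card_pc 23 m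

theorem pc_strip (n : ℕ) : ∀ y : ℕ, pc n y ≤ pc n (y &&& (y - 1)) + 1 := by
  induction n with
  | zero => intro y; simp [pc]
  | succ n ih =>
    intro y
    rw [pc, pc, Nat.and_div_two]
    rcases Nat.mod_two_eq_zero_or_one y with h | h
    · rcases Nat.eq_zero_or_pos y with h0 | h0
      · subst h0
        have := ih 0
        simp at this ⊢
      · have h1 : (y - 1) / 2 = y / 2 - 1 := by omega
        rw [h1]
        have := ih (y / 2)
        omega
    · have h1 : (y - 1) / 2 = y / 2 := by omega
      rw [h1, Nat.and_self]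
      omega

theorem pc_zero (n : ℕ) : pc n 0 = 0 := by
  induction n with
  | zero => rfl
  | succ n ih => rw [pc]; simpa using ih

/-- at most three binary digits are one, as three steps remove them all -/
def small (y : ℕ) : Bool :=
  let y1 := y &&& (y - 1)
  let y2 := y1 &&& (y1 - 1)
  (y2 &&& (y2 - 1)) == 0

theorem small_spec {y : ℕ} (h : small y = true) : pc 23 y ≤ 3 := by
  have h1 := pc_strip 23 y
  have h2 := pc_strip 23 (y &&& (y - 1))
  have h3 := pc_strip 23 ((y &&& (y - 1)) &&& ((y &&& (y - 1)) - 1))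
  have h4 : ((y &&& (y - 1)) &&& ((y &&& (y - 1)) - 1)) &&&
      (((y &&& (y - 1)) &&& ((y &&& (y - 1)) - 1)) - 1) = 0 := by
    simpa [small] using h
  rw [h4, pc_zero] at h3
  omega

theorem toSet_injOn {a b : ℕ} (ha : a < 2 ^ 23) (hb : b < 2 ^ 23) (h : toSet a = toSet b) :
    a = b := by
  apply Nat.eq_of_testBit_eq
  intro i
  by_cases hi : i < 23
  · have h1 : (⟨i, hi⟩ : Fin 23) ∈ toSet a ↔ (⟨i, hi⟩ : Fin 23) ∈ toSet b := by rw [h]
    rw [mem_toSet, mem_toSet] at h1
    exact Bool.eq_iff_iff.2 h1
  · have h2 : (2 : ℕ) ^ 23 ≤ 2 ^ i := Nat.pow_le_pow_right (by norm_num) (by omega)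
    rw [Nat.testBit_lt_two_pow (by omega), Nat.testBit_lt_two_pow (by omega)]

end Pool.Agent.V8H5.QS
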