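import Pool.Agent.V8H5.QS.Marked
import Pool.Agent.V8H5.QS.Golay

set_option autoImplicit false

/-! # Uniqueness of the Steiner system `S(4,7,23)` with a marked point -/

namespace Pool.Agent.V8H5.QS

open Finset

section Iso

variable {P Q : Type} [Fintype P] [DecidableEq P] [Fintype Q] [DecidableEq Q]

theorem map_symm_map (e : P ≃ Q) (B : Finset Q) :
    (B.map e.symm.toEmbedding).map e.toEmbedding = B := by
  rw [Finset.map_map]
  ext x
  simp

theorem map_symm_map' (e : Q ≃ P) (B : Finset P) :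
    (B.map e.symm.toEmbedding).map e.toEmbedding = B := map_symm_map e B

theorem map_map_symm (e : P ≃ Q) (B : Finset P) :
    (B.map e.toEmbedding).map e.symm.toEmbedding = B := by
  rw [Finset.map_map]
  ext x
  simp

theorem IsDesign.iso {𝓑 : Finset (Finset P)} {𝓒 : Finset (Finset Q)} {t v k lam : ℕ}
    (hD : IsDesign t v k lam 𝓑) (e : P ≃ Q) (h : ∀ B, B ∈ 𝓑 ↔ B.map e.toEmbedding ∈ 𝓒) :
    IsDesign t v k lam 𝓒 := by
  have h' : ∀ C, C ∈ 𝓒 ↔ C.map e.symm.toEmbedding ∈ 𝓑 := by
    intro C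
    rw [h, map_symm_map]
  refine ⟨?_, ?_, ?_⟩
  · rw [← Fintype.card_congr e, hD.points]
  · intro B hB
    rw [h'] at hB
    rw [← hD.size _ hB, card_map]
  · intro T hT
    have h1 := hD.cover (T.map e.symm.toEmbedding) (by rw [card_map, hT])
    rw [← h1]
    refine Finset.card_bij (fun B _ => B.map e.symm.toEmbedding) ?_ ?_ ?_
    · intro B hB
      rw [mem_filter] at hB ⊢
      exact ⟨(h' B).1 hB.1, map_subset_map.2 hB.2⟩
    · intro B _ C _ hBC
      exact map_injective _ hBC
    · intro B hB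
      rw [mem_filter] at hB
      refine ⟨B.map e.toEmbedding, ?_, map_map_symm e B⟩
      rw [mem_filter]
      refine ⟨(h B).1 hB.1, ?_⟩
      rw [← map_symm_map e T]
      exact map_subset_map.2 hB.2

end Iso

section Glue

variable {P : Type}

/-- the names of the points -/
def glue (g : Fin 7 → P) (q : P) (h : Fin 15 → P) (a : Fin 23) : P :=
  if ha : a.val < 7 then g ⟨a.val, ha⟩ else if a.val < 8 then q else h ⟨a.val - 8, by omega⟩

theorem glue_lt (g : Fin 7 → P) (q : P) (h : Fin 15 → P) (a : Fin 23) (i : Fin 7)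
    (hi : a.val = i.val) : glue g q h a = g i := by
  have h1 : a.val < 7 := by omega
  rw [glue, dif_pos h1]
  congr 1
  exact Fin.ext hi

theorem glue_seven (g : Fin 7 → P) (q : P) (h : Fin 15 → P) (a : Fin 23) (ha : a.val = 7) :
    glue g q h a = q := by
  rw [glue, dif_neg (by omega), if_pos (by omega)]

theorem glue_ge (g : Fin 7 → P) (q : P) (h : Fin 15 → P) (a : Fin 23) (c : Fin 15)
    (ha : a.val = c.val + 8) : glue g q h a = h c := by
  rw [glue, dif_neg (by omega), if_neg (by omega)]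
  congr 1
  apply Fin.ext
  simp only
  omega

theorem cases23 (a : Fin 23) : (∃ i : Fin 7, a.val = i.val) ∨ a.val = 7 ∨
    ∃ c : Fin 15, a.val = c.val + 8 := by
  rcases Nat.lt_or_ge a.val 7 with h | h
  · exact Or.inl ⟨⟨a.val, h⟩, rfl⟩
  · rcases Nat.lt_or_ge a.val 8 with h' | h'
    · right; left; omega
    · right; right
      exact ⟨⟨a.val - 8, by omega⟩, by simp only; omega⟩

theorem glue_injective {g : Fin 7 → P} {q : P} {h : Fin 15 → P} (hg : Function.Injective g)
    (hq : ∀ i, q ≠ g i) (h1 : ∀ c, h c ≠ q) (h2 : ∀ c a, h c ≠ g a)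
    (hh : Function.Injective h) : Function.Injective (glue g q h) := by
  intro a b hab
  rcases cases23 a with ⟨i, hi⟩ | hi | ⟨i, hi⟩ <;> rcases cases23 b with ⟨j, hj⟩ | hj | ⟨j, hj⟩
  · rw [glue_lt g q h a i hi, glue_lt g q h b j hj] at hab
    apply Fin.ext
    rw [hi, hj, hg hab]
  · rw [glue_lt g q h a i hi, glue_seven g q h b hj] at hab
    exact absurd hab.symm (hq i)
  · rw [glue_lt g q h a i hi, glue_ge g q h b j hj] at hab
    exact absurd hab.symm (h2 j i)
  · rw [glue_seven g q h a hi, glue_lt g q h b j hj] at hab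
    exact absurd hab (hq j)
  · apply Fin.ext
    rw [hi, hj]
  · rw [glue_seven g q h a hi, glue_ge g q h b j hj] at hab
    exact absurd hab.symm (h1 j)
  · rw [glue_ge g q h a i hi, glue_lt g q h b j hj] at hab
    exact absurd hab (h2 i j)
  · rw [glue_ge g q h a i hi, glue_seven g q h b hj] at hab
    exact absurd hab (h1 i)
  · rw [glue_ge g q h a i hi, glue_ge g q h b j hj] at hab
    apply Fin.ext
    rw [hi, hj, hh hab]

end Glue

/-- the fifteen blocks through two given points and two more points of a given block -/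
def duads : List (Fin 7 × Fin 7 × ℕ) := [
  (1, 2, 1927), (1, 3, 1196171), (1, 4, 2361491), (1, 5, 4231331), (1, 6, 598211),
  (2, 3, 14477), (2, 4, 114837), (2, 5, 917669), (2, 6, 7340229), (3, 4, 4719001),
  (3, 5, 2163369), (3, 6, 296137), (4, 5, 1057969), (4, 6, 135889), (5, 6, 18913)]

theorem duads_check : ∀ t ∈ duads, t.1 ≠ 0 ∧ t.2.1 ≠ 0 ∧ t.1 ≠ t.2.1 ∧ pc 23 t.2.2 = 7 ∧
    ∀ a : Fin 23, t.2.2.testBit a.val = true → (a.val = 0 ∨ a.val = t.1.val ∨
      a.val = t.2.1.val ∨ a.val = 7 ∨ ∃ c : Fin 15, a.val = c.val + 8 ∧ part c t.1 = t.2.1) := by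
  decide +kernel

section Naming

variable {P : Type} [Fintype P] [DecidableEq P] {𝓦 : Finset (Finset P)}

/-- a naming of the points for which sixteen standard sets are blocks -/
theorem exists_naming (hD : IsDesign 4 23 7 1 𝓦) (p : P) : ∃ f : Fin 23 → P,
    Function.Injective f ∧ f 0 = p ∧ (toSet 127).image f ∈ 𝓦 ∧
      ∀ t ∈ duads, (toSet t.2.2).image f ∈ 𝓦 := by
  -- a block through `p`
  have hb : ∃ B ∈ 𝓦, p ∈ B := by
    have h1 := (degs4 hD).2.2.1 {p} (card_singleton p)
    obtain ⟨B, hB⟩ := Finset.card_pos.1 (show 0 < deg 𝓦 {p} by omega)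
    rw [mem_filter] at hB
    exact ⟨B, hB.1, hB.2 (mem_singleton_self p)⟩
  obtain ⟨B, hB, hpB⟩ := hb
  have hB7 := hD.size B hB
  -- its points
  have hg : ∃ g : Fin 7 → P, Function.Injective g ∧ univ.image g = B ∧ g 0 = p := by
    have e0 : Fin 7 ≃ B := (finCongr hB7.symm).trans B.equivFin.symm
    let e : Fin 7 ≃ B := (Equiv.swap 0 (e0.symm ⟨p, hpB⟩)).trans e0
    refine ⟨fun i => (e i : P), ?_, ?_, ?_⟩
    · intro i j hij
      exact e.injective (Subtype.ext hij)
    · ext x
      simp only [mem_image, mem_univ, true_and]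
      constructor
      · rintro ⟨i, rfl⟩
        exact (e i).2
      · intro hx
        exact ⟨e.symm ⟨x, hx⟩, by simp⟩
    · simp [e]
  obtain ⟨g, hg, hgB, hg0⟩ := hg
  -- a further point
  have hq : ∃ q, ∀ i, q ≠ g i := by
    have h1 : ∃ q, q ∉ B := by
      by_contra hcon
      push Not at hcon
      have h2 : B = univ := eq_univ_iff_forall.2 hcon
      rw [h2, card_univ, hD.points] at hB7
      omega
    obtain ⟨q, hq⟩ := h1
    refine ⟨q, fun i h => hq ?_⟩
    rw [h, ← hgB]
    simp
  obtain ⟨q, hq⟩ := hq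
  rw [← hgB] at hB
  obtain ⟨D, hDD⟩ := exists_D hD hg hB hq
  obtain ⟨h, hh⟩ := exists_h hD hg hB hq hDD
  have hinj : Function.Injective h := by
    intro c c' hcc
    by_contra hne
    have t1 : ∀ c c' : Fin 15, c ≠ c' → ∃ m : Fin 7, m ≠ 0 ∧ part c m ≠ part c' m := by
      decide +kernel
    have t4 : ∀ c : Fin 15, ∀ m : Fin 7, m ≠ 0 → part c m ≠ 0 ∧ m ≠ part c m := by
      decide +kernel
    obtain ⟨m, hm, hmm⟩ := t1 c c' hne
    have h1 := (hh c).2.2 m hm
    have h2 := (hh c').2.2 m hm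
    rw [← hcc] at h2
    rcases D_share hD hg hB hq hDD hm (t4 c m hm).1 (t4 c' m hm).1 (t4 c m hm).2 (t4 c' m hm).2
      hmm h1 h2 with h' | ⟨a, h'⟩
    · exact (hh c).1 h'
    · exact (hh c).2.1 a h'
  have hf : Function.Injective (glue g q h) :=
    glue_injective hg hq (fun c => (hh c).1) (fun c => (hh c).2.1) hinj
  refine ⟨glue g q h, hf, ?_, ?_, ?_⟩
  · rw [glue_lt g q h 0 0 rfl, hg0]
  · have h1 : (toSet 127).image (glue g q h) = univ.image g := by
      have t1 : ∀ a : Fin 23, (127 : ℕ).testBit a.val = true ↔ a.val < 7 := by decide +kernel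
      ext x
      simp only [mem_image, mem_toSet, mem_univ, true_and, t1]
      constructor
      · rintro ⟨a, ha, rfl⟩
        exact ⟨⟨a.val, ha⟩, (glue_lt g q h a ⟨a.val, ha⟩ rfl).symm⟩
      · rintro ⟨i, rfl⟩
        exact ⟨⟨i.val, by omega⟩, by simp, glue_lt g q h _ i rfl⟩
    rw [h1]
    exact hB
  · intro t ht
    obtain ⟨c1, c2, c3, c4, c5⟩ := duads_check t ht
    obtain ⟨d1, d2, d3, d4, d5⟩ := hDD t.1 t.2.1 c1 c2 c3
    have h1 : (toSet t.2.2).image (glue g q h) = D t.1 t.2.1 := by
      apply eq_of_subset_of_card_le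
      · intro x hx
        rw [mem_image] at hx
        obtain ⟨a, ha, rfl⟩ := hx
        rw [mem_toSet] at ha
        rcases c5 a ha with h' | h' | h' | h' | ⟨c, h', h''⟩
        · rw [glue_lt g q h a 0 h']
          exact d2
        · rw [glue_lt g q h a _ h']
          exact d4
        · rw [glue_lt g q h a _ h']
          exact d5
        · rw [glue_seven g q h a h']
          exact d3
        · rw [glue_ge g q h a c h']
          have := (hh c).2.2 t.1 c1
          rw [h''] at this
          exact this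
      · rw [hD.size _ d1, card_image_of_injective _ hf, card_toSet, c4]
    rw [h1]
    exact d1

end Naming

end Pool.Agent.V8H5.QS
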