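import Pool.Agent.V8H5.QS.Steiner

set_option autoImplicit false
set_option linter.unusedSectionVars false

/-! # Steiner systems S(4,7,23): seven points with odd intersections form a block -/

namespace Pool.Agent.V8H5.QS

open Finset

variable {P : Type} [Fintype P] [DecidableEq P] {𝓑 : Finset (Finset P)}

/-- seven points meeting every block in an odd number of points form a block -/
theorem block_of_odd (hD : IsDesign 4 23 7 1 𝓑) {D : Finset P} (hD7 : D.card = 7)
    (hodd : ∀ X ∈ 𝓑, Odd (D ∩ X).card) : D ∈ 𝓑 := by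
  by_contra hn
  obtain ⟨c3, c2, c1, c0⟩ := degs4 hD
  have s2 := sum_choose_inter 𝓑 D 2 _ c2
  have s3 := sum_choose_inter 𝓑 D 3 _ c3
  have s4 := sum_choose_inter 𝓑 D 4 _ hD.cover
  rw [hD7] at s2 s3 s4
  have key : ∑ X ∈ 𝓑, ((D ∩ X).card.choose 2 + 4 * (D ∩ X).card.choose 4) =
      ∑ X ∈ 𝓑, 3 * (D ∩ X).card.choose 3 := by
    refine Finset.sum_congr rfl fun X hX => ?_
    have h1 := hodd X hX
    have h2 : (D ∩ X).card ≤ 7 := (card_le_card inter_subset_left).trans hD7.le
    have h3 : (D ∩ X).card ≠ 7 := by
      intro h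
      apply hn
      have h4 : D ∩ X = D := eq_of_subset_of_card_le inter_subset_left (by omega)
      have h5 : D ∩ X = X := eq_of_subset_of_card_le inter_subset_right (by
        rw [hD.size X hX]; omega)
      rw [← h4, h5]
      exact hX
    interval_cases (D ∩ X).card <;> first | decide | (exfalso; revert h1; decide) | omega
  rw [Finset.sum_add_distrib, ← Finset.mul_sum, ← Finset.mul_sum, s2, s3, s4] at key
  revert key
  decide

theorem card_inter_symmDiff (X A B : Finset P) :
    (X ∩ symmDiff A B).card + 2 * (X ∩ A ∩ B).card = (X ∩ A).card + (X ∩ B).card := by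
  have h1 : (X ∩ symmDiff A B).card = ((X ∩ A) \ B).card + ((X ∩ B) \ A).card := by
    rw [← card_union_of_disjoint]
    · congr 1
      ext x
      simp only [mem_inter, mem_symmDiff, mem_union, mem_sdiff]
      tauto
    · rw [disjoint_left]
      intro x
      simp only [mem_inter, mem_sdiff]
      tauto
  have h2 : (X ∩ A).card = ((X ∩ A) \ B).card + (X ∩ A ∩ B).card := by
    rw [← card_union_of_disjoint]
    · congr 1
      ext x
      simp only [mem_inter, mem_union, mem_sdiff]
      tauto
    · rw [disjoint_left]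
      intro x
      simp only [mem_inter, mem_sdiff]
      tauto
  have h3 : (X ∩ B).card = ((X ∩ B) \ A).card + (X ∩ A ∩ B).card := by
    rw [← card_union_of_disjoint]
    · congr 1
      ext x
      simp only [mem_inter, mem_union, mem_sdiff]
      tauto
    · rw [disjoint_left]
      intro x
      simp only [mem_inter, mem_sdiff]
      tauto
  omega

theorem odd_inter (hD : IsDesign 4 23 7 1 𝓑) {A X : Finset P} (hA : A ∈ 𝓑) (hX : X ∈ 𝓑) :
    Odd (X ∩ A).card := by
  by_cases h : A = X
  · rw [h, inter_self, hD.size X hX]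
    decide
  · rcases inter_one_three hD hX hA h with h1 | h1 <;> rw [h1] <;> decide

/-- if the symmetric difference of three blocks has seven points then it is a block -/
theorem block_of_three (hD : IsDesign 4 23 7 1 𝓑) {A B C : Finset P} (hA : A ∈ 𝓑) (hB : B ∈ 𝓑)
    (hC : C ∈ 𝓑) (h7 : (symmDiff (symmDiff A B) C).card = 7) :
    symmDiff (symmDiff A B) C ∈ 𝓑 := by
  apply block_of_odd hD h7
  intro X hX
  rw [inter_comm]
  have h1 := card_inter_symmDiff X (symmDiff A B) C
  have h2 := card_inter_symmDiff X A B
  obtain ⟨a, ha⟩ := odd_inter hD hA hX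
  obtain ⟨b, hb⟩ := odd_inter hD hB hX
  obtain ⟨c, hc⟩ := odd_inter hD hC hX
  rw [Nat.odd_iff]
  omega

end Pool.Agent.V8H5.QS
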