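import Pool.Agent.V8H5.QS.Count
import Pool.Agent.V8H5.QS.Numeric

set_option autoImplicit false
set_option linter.unusedSectionVars false

/-! # From the parameters to Steiner systems S(4,7,23) -/

namespace Pool.Agent.V8H5.QS

open Finset

variable {P : Type} [Fintype P] [DecidableEq P]

theorem deg_le_one {𝓑 : Finset (Finset P)} {t : ℕ}
    (hint : ∀ B ∈ 𝓑, ∀ C ∈ 𝓑, B ≠ C → (B ∩ C).card < t) (T : Finset P) (hT : T.card = t) :
    deg 𝓑 T ≤ 1 := by
  rw [deg, Finset.card_le_one]
  intro B hB C hC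
  rw [mem_filter] at hB hC
  by_contra h
  have := hint B hB.1 C hC.1 h
  have h2 := card_le_card (subset_inter hB.2 hC.2)
  omega

theorem sum_deg_powersetCard {𝓑 : Finset (Finset P)} {k t : ℕ} (hk : ∀ B ∈ 𝓑, B.card = k) :
    ∑ T ∈ (univ : Finset P).powersetCard t, deg 𝓑 T = 𝓑.card * k.choose t := by
  have h2 : ∀ T ∈ (univ : Finset P).powersetCard t, deg 𝓑 T = ∑ C ∈ 𝓑, if T ⊆ C then 1 else 0 := by
    intro T _
    rw [deg, Finset.card_filter]
  rw [Finset.sum_congr rfl h2, Finset.sum_comm]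
  have h3 : ∀ C ∈ 𝓑, (∑ T ∈ (univ : Finset P).powersetCard t, if T ⊆ C then 1 else 0) =
      k.choose t := by
    intro C hC
    rw [← Finset.card_filter, ← hk C hC, ← card_powersetCard]
    congr 1
    ext T
    simp only [mem_filter, mem_powersetCard, subset_univ, true_and]
    tauto
  rw [Finset.sum_congr rfl h3, Finset.sum_const, smul_eq_mul]

/-- a family of `k`-sets meeting pairwise in fewer than `t` points, with the right number of
members, is a Steiner system -/
theorem steiner_of_card {𝓑 : Finset (Finset P)} {v k t : ℕ} (hv : Fintype.card P = v)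
    (hk : ∀ B ∈ 𝓑, B.card = k)
    (hint : ∀ B ∈ 𝓑, ∀ C ∈ 𝓑, B ≠ C → (B ∩ C).card < t)
    (hc : 𝓑.card * k.choose t = v.choose t) : IsDesign t v k 1 𝓑 := by
  refine ⟨hv, hk, ?_⟩
  intro T hT
  by_contra hne
  have h1 : deg 𝓑 T < 1 := lt_of_le_of_ne (deg_le_one hint T hT) hne
  have h2 := sum_deg_powersetCard (t := t) hk
  have h3 : ∑ T ∈ (univ : Finset P).powersetCard t, deg 𝓑 T <
      ∑ T ∈ (univ : Finset P).powersetCard t, 1 := by
    apply Finset.sum_lt_sum
    · intro S hS
      exact deg_le_one hint S (mem_powersetCard.1 hS).2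
    · exact ⟨T, mem_powersetCard.2 ⟨subset_univ _, hT⟩, h1⟩
  rw [h2, hc, Finset.sum_const, card_powersetCard, card_univ, hv] at h3
  simp at h3

/-- the block of a Steiner system through `t` points -/
theorem exists_block {𝓑 : Finset (Finset P)} {t v k : ℕ} (hD : IsDesign t v k 1 𝓑)
    (T : Finset P) (hT : T.card = t) : ∃ B ∈ 𝓑, T ⊆ B ∧ ∀ C ∈ 𝓑, T ⊆ C → C = B := by
  obtain ⟨B, hB⟩ := Finset.card_eq_one.1 (hD.cover T hT)
  have h1 : B ∈ 𝓑.filter (fun B => T ⊆ B) := by rw [hB]; simp
  rw [mem_filter] at h1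
  refine ⟨B, h1.1, h1.2, fun C hC hTC => ?_⟩
  have h2 : C ∈ 𝓑.filter (fun B => T ⊆ B) := mem_filter.2 ⟨hC, hTC⟩
  rw [hB] at h2
  simpa using h2

/-- two blocks of a Steiner system have fewer than `t` common points -/
theorem inter_lt {𝓑 : Finset (Finset P)} {t v k : ℕ} (hD : IsDesign t v k 1 𝓑)
    {B C : Finset P} (hB : B ∈ 𝓑) (hC : C ∈ 𝓑) (hne : B ≠ C) : (B ∩ C).card < t := by
  by_contra h
  obtain ⟨T, hT, hTc⟩ := Finset.exists_subset_card_eq (not_lt.1 h)
  obtain ⟨D, -, -, h3⟩ := exists_block hD T hTc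
  rw [subset_inter_iff] at hT
  exact hne ((h3 B hB hT.1).trans (h3 C hC hT.2).symm)

/-- the degrees in a Steiner system S(4,7,23) -/
theorem degs4 {𝓑 : Finset (Finset P)} (hD : IsDesign 4 23 7 1 𝓑) :
    (∀ T : Finset P, T.card = 3 → deg 𝓑 T = 5) ∧ (∀ T : Finset P, T.card = 2 → deg 𝓑 T = 21) ∧
      (∀ T : Finset P, T.card = 1 → deg 𝓑 T = 77) ∧ 𝓑.card = 253 := by
  have h4 : ∀ T : Finset P, T.card = 3 + 1 → deg 𝓑 T = 1 := hD.cover
  have e3 := fun S hS => deg_step hD.size h4 S hS
  rw [hD.points] at e3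
  have c3 : ∀ T : Finset P, T.card = 2 + 1 → deg 𝓑 T = 5 := by
    intro T hT
    have := e3 T hT
    omega
  have e2 := fun S hS => deg_step hD.size c3 S hS
  rw [hD.points] at e2
  have c2 : ∀ T : Finset P, T.card = 1 + 1 → deg 𝓑 T = 21 := by
    intro T hT
    have := e2 T hT
    omega
  have e1 := fun S hS => deg_step hD.size c2 S hS
  rw [hD.points] at e1
  have c1 : ∀ T : Finset P, T.card = 0 + 1 → deg 𝓑 T = 77 := by
    intro T hT
    have := e1 T hT
    omega
  have e0 := deg_step hD.size c1 ∅ (by simp)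
  rw [hD.points, deg_empty] at e0
  exact ⟨c3, c2, c1, by omega⟩

/-- two blocks of a Steiner system S(4,7,23) have 1 or 3 common points -/
theorem inter_one_three {𝓑 : Finset (Finset P)} (hD : IsDesign 4 23 7 1 𝓑)
    {B C : Finset P} (hB : B ∈ 𝓑) (hC : C ∈ 𝓑) (hne : C ≠ B) :
    (B ∩ C).card = 1 ∨ (B ∩ C).card = 3 := by
  obtain ⟨c3, c2, c1, c0⟩ := degs4 hD
  have h0 : ∀ T : Finset P, T.card = 0 → deg 𝓑 T = 253 := by
    intro T hT
    rw [card_eq_zero.1 hT, deg_empty, c0]
  have s0 := sum_choose_inter 𝓑 B 0 _ h0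
  have s1 := sum_choose_inter 𝓑 B 1 _ c1
  have s2 := sum_choose_inter 𝓑 B 2 _ c2
  have s3 := sum_choose_inter 𝓑 B 3 _ c3
  rw [hD.size B hB] at s0 s1 s2 s3
  rw [← Finset.add_sum_erase _ _ hB, inter_self, hD.size B hB] at s0 s1 s2 s3
  have hlt : ∀ D ∈ 𝓑.erase B, (B ∩ D).card ≤ 3 := by
    intro D hD'
    rw [mem_erase] at hD'
    have := inter_lt hD hB hD'.2 hD'.1.symm
    omega
  have f0 : ∑ D ∈ 𝓑.erase B, (B ∩ D).card.choose 0 = 252 := by
    have : (7 : ℕ).choose 0 = 1 := rfl
    omega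
  have f1 : ∑ D ∈ 𝓑.erase B, (B ∩ D).card.choose 1 = 532 := by
    have : (7 : ℕ).choose 1 = 7 := rfl
    omega
  have f2 : ∑ D ∈ 𝓑.erase B, (B ∩ D).card.choose 2 = 420 := by
    have : (7 : ℕ).choose 2 = 21 := rfl
    omega
  have f3 : ∑ D ∈ 𝓑.erase B, (B ∩ D).card.choose 3 = 140 := by
    have : (7 : ℕ).choose 3 = 35 := rfl
    omega
  have hCm : C ∈ 𝓑.erase B := mem_erase.2 ⟨hne, hC⟩
  have k1 : ∑ D ∈ 𝓑.erase B, 3 * (B ∩ D).card.choose 3 = ∑ D ∈ 𝓑.erase B, (B ∩ D).card.choose 2 := by
    rw [← Finset.mul_sum, f2, f3]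
    norm_num
  have k2 : ∑ D ∈ 𝓑.erase B, ((B ∩ D).card.choose 1 + (B ∩ D).card.choose 3) =
      ∑ D ∈ 𝓑.erase B, ((B ∩ D).card.choose 0 + (B ∩ D).card.choose 2) := by
    rw [Finset.sum_add_distrib, Finset.sum_add_distrib, f0, f1, f2, f3]
  have p1 := (Finset.sum_eq_sum_iff_of_le (fun D hD' => by
    have := hlt D hD'
    interval_cases (B ∩ D).card <;> decide)).1 k1 C hCm
  have p2 := (Finset.sum_eq_sum_iff_of_le (fun D hD' => by
    have := hlt D hD'
    interval_cases (B ∩ D).card <;> decide)).1 k2 C hCm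
  have := hlt C hCm
  interval_cases (B ∩ C).card <;> simp_all [Nat.choose]

/-- the union of the blocks containing `T` -/
def cov (𝓑 : Finset (Finset P)) (T : Finset P) : Finset P :=
  (𝓑.filter (fun B => T ⊆ B)).biUnion id

/-- `T` and the points which are in no block with `T` -/
def hex (𝓑 : Finset (Finset P)) (T : Finset P) : Finset P := T ∪ (cov 𝓑 T)ᶜ

theorem mem_cov {𝓑 : Finset (Finset P)} {T : Finset P} {x : P} :
    x ∈ cov 𝓑 T ↔ ∃ B ∈ 𝓑, T ⊆ B ∧ x ∈ B := by
  simp [cov, and_assoc]

section Residual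

variable {𝓑 : Finset (Finset P)} (hD : IsDesign 3 22 7 4 𝓑)
  (hint : ∀ B ∈ 𝓑, ∀ C ∈ 𝓑, B ≠ C → (B ∩ C).card = 1 ∨ (B ∩ C).card = 3)

include hD hint

theorem inter_eq {T B C : Finset P} (hT : T.card = 3) (hB : B ∈ 𝓑) (hC : C ∈ 𝓑) (hne : B ≠ C)
    (hTB : T ⊆ B) (hTC : T ⊆ C) : B ∩ C = T := by
  symm
  apply eq_of_subset_of_card_le (subset_inter hTB hTC)
  have := hint B hB C hC hne
  omega

omit hint in
theorem subset_cov {T : Finset P} (hT : T.card = 3) : T ⊆ cov 𝓑 T := by
  have h4 := hD.cover T hT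
  obtain ⟨B, hB⟩ := Finset.card_pos.1 (show 0 < (𝓑.filter (fun B => T ⊆ B)).card by omega)
  rw [mem_filter] at hB
  intro x hx
  exact mem_cov.2 ⟨B, hB.1, hB.2, hB.2 hx⟩

theorem card_cov {T : Finset P} (hT : T.card = 3) : (cov 𝓑 T).card = 19 := by
  have h1 : T ⊆ cov 𝓑 T := subset_cov hD hT
  have h2 : cov 𝓑 T \ T = (𝓑.filter (fun B => T ⊆ B)).biUnion (fun B => B \ T) := by
    ext x
    simp only [mem_sdiff, mem_cov, mem_biUnion, mem_filter]
    constructor
    · rintro ⟨⟨B, h1, h2, h3⟩, h4⟩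
      exact ⟨B, ⟨h1, h2⟩, h3, h4⟩
    · rintro ⟨B, ⟨h1, h2⟩, h3, h4⟩
      exact ⟨⟨B, h1, h2, h3⟩, h4⟩
  have h3 : (cov 𝓑 T \ T).card = 16 := by
    rw [h2, card_biUnion]
    · have : ∀ B ∈ 𝓑.filter (fun B => T ⊆ B), (B \ T).card = 4 := by
        intro B hB
        rw [mem_filter] at hB
        rw [card_sdiff_of_subset hB.2, hD.size B hB.1, hT]
      rw [Finset.sum_congr rfl this, Finset.sum_const, hD.cover T hT]
      rfl
    · intro B hB C hC hne
      rw [mem_coe, mem_filter] at hB hC
      have := inter_eq hD hint hT hB.1 hC.1 hne hB.2 hC.2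
      rw [Function.onFun, disjoint_left]
      intro x hx hx'
      rw [mem_sdiff] at hx hx'
      apply hx.2
      rw [← this, mem_inter]
      exact ⟨hx.1, hx'.1⟩
  have := card_sdiff_add_card_eq_card h1
  omega

theorem card_hex {T : Finset P} (hT : T.card = 3) : (hex 𝓑 T).card = 6 := by
  have h1 := card_cov hD hint hT
  have h2 : Disjoint T (cov 𝓑 T)ᶜ := by
    rw [disjoint_left]
    intro x hx hx'
    rw [mem_compl] at hx'
    exact hx' (subset_cov hD hT hx)
  rw [hex, card_union_of_disjoint h2, card_compl, h1, hD.points, hT]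

theorem inter_hex {T B : Finset P} (hT : T.card = 3) (hB : B ∈ 𝓑) :
    (B ∩ hex 𝓑 T).card ≤ 3 := by
  by_cases hTB : T ⊆ B
  · have : B ∩ hex 𝓑 T ⊆ T := by
      intro x hx
      rw [mem_inter, hex, mem_union, mem_compl, mem_cov] at hx
      rcases hx with ⟨h1, h2 | h2⟩
      · exact h2
      · exact absurd ⟨B, hB, hTB, h1⟩ h2
    exact (card_le_card this).trans hT.le
  · -- the blocks through `T`
    have h4 := hD.cover T hT
    set 𝓣 := 𝓑.filter (fun B => T ⊆ B) with h𝓣
    have hne : ∀ C ∈ 𝓣, B ≠ C := by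
      rintro C hC rfl
      exact hTB (mem_filter.1 hC).2
    have hodd : ∀ C ∈ 𝓣, (B ∩ C).card = 2 * ((B ∩ C).card / 2) + 1 := by
      intro C hC
      have := hint B hB C (mem_filter.1 hC).1 (hne C hC)
      omega
    have hs1 : ∑ C ∈ 𝓣, (B ∩ C).card = 2 * (∑ C ∈ 𝓣, (B ∩ C).card / 2) + 4 := by
      rw [Finset.sum_congr rfl hodd, Finset.sum_add_distrib, ← Finset.mul_sum, Finset.sum_const, h4]
      simp
    have hsp : ∀ C ∈ 𝓣, (B ∩ C).card = (B ∩ T).card + (B ∩ (C \ T)).card := by
      intro C hC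
      rw [← card_union_of_disjoint]
      · congr 1
        ext x
        have := @(mem_filter.1 hC).2 x
        simp only [mem_inter, mem_union, mem_sdiff]
        tauto
      · rw [disjoint_left]
        intro x hx hx'
        simp only [mem_inter, mem_sdiff] at hx hx'
        exact hx'.2.2 hx.2
    have hs2 : ∑ C ∈ 𝓣, (B ∩ C).card = 4 * (B ∩ T).card + ∑ C ∈ 𝓣, (B ∩ (C \ T)).card := by
      rw [Finset.sum_congr rfl hsp, Finset.sum_add_distrib, Finset.sum_const, h4, smul_eq_mul]
    have hs3 : ∑ C ∈ 𝓣, (B ∩ (C \ T)).card = (B ∩ (cov 𝓑 T \ T)).card := by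
      rw [← card_biUnion]
      · congr 1
        ext x
        simp only [mem_biUnion, mem_inter, mem_sdiff, mem_cov, h𝓣, mem_filter]
        constructor
        · rintro ⟨C, ⟨h1, h2⟩, h3, h4, h5⟩
          exact ⟨h3, ⟨C, h1, h2, h4⟩, h5⟩
        · rintro ⟨h3, ⟨C, h1, h2, h4⟩, h5⟩
          exact ⟨C, ⟨h1, h2⟩, h3, h4, h5⟩
      · intro C hC D hD' hne'
        rw [mem_coe, mem_filter] at hC hD'
        have := inter_eq hD hint hT hC.1 hD'.1 hne' hC.2 hD'.2
        rw [Function.onFun, disjoint_left]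
        intro x hx hx'
        simp only [mem_inter, mem_sdiff] at hx hx'
        apply hx.2.2
        rw [← this, mem_inter]
        exact ⟨hx.2.1, hx'.2.1⟩
    -- the three parts of `B`
    have hTc : T ⊆ cov 𝓑 T := subset_cov hD hT
    have hB7 : (B ∩ T).card + (B ∩ (cov 𝓑 T \ T)).card + (B ∩ (cov 𝓑 T)ᶜ).card = 7 := by
      rw [← hD.size B hB, ← card_union_of_disjoint, ← card_union_of_disjoint]
      · congr 1
        ext x
        have := @hTc x
        simp only [mem_inter, mem_union, mem_sdiff, mem_compl]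
        tauto
      · rw [disjoint_left]
        intro x hx hx'
        have := @hTc x
        simp only [mem_inter, mem_union, mem_sdiff, mem_compl] at hx hx'
        tauto
      · rw [disjoint_left]
        intro x hx hx'
        simp only [mem_inter, mem_sdiff] at hx hx'
        exact hx'.2.2 hx.2
    have hη : (B ∩ (cov 𝓑 T)ᶜ).card ≤ 3 := by
      refine (card_le_card inter_subset_right).trans ?_
      rw [card_compl, card_cov hD hint hT, hD.points]
    have hun : (B ∩ hex 𝓑 T).card ≤ (B ∩ T).card + (B ∩ (cov 𝓑 T)ᶜ).card := by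
      rw [hex, inter_union_distrib_left]
      exact card_union_le _ _
    have ht : (B ∩ T).card ≤ 2 := by
      by_contra h
      apply hTB
      have : B ∩ T = T := eq_of_subset_of_card_le inter_subset_right (by omega)
      rw [← this]
      exact inter_subset_left
    have h12 : ∑ C ∈ 𝓣, (B ∩ C).card ≤ 12 := by
      have : ∑ C ∈ 𝓣, (B ∩ C).card ≤ ∑ C ∈ 𝓣, 3 := by
        apply Finset.sum_le_sum
        intro C hC
        have := hint B hB C (mem_filter.1 hC).1 (hne C hC)
        omega
      rw [Finset.sum_const, h4] at this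
      simpa using this
    have h2 : (B ∩ T).card = 2 → ∑ C ∈ 𝓣, (B ∩ C).card = 12 := by
      intro h2
      have : ∀ C ∈ 𝓣, (B ∩ C).card = 3 := by
        intro C hC
        have h5 := hint B hB C (mem_filter.1 hC).1 (hne C hC)
        have h6 := hsp C hC
        omega
      rw [Finset.sum_congr rfl this, Finset.sum_const, h4]
      rfl
    rcases (show (B ∩ T).card = 0 ∨ (B ∩ T).card = 1 ∨ (B ∩ T).card = 2 by omega) with h | h | h
    · omega
    · omega
    · have := h2 h
      omega

/-- the sets of six points which meet every block in at most three points -/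
def hexads (𝓑 : Finset (Finset P)) : Finset (Finset P) :=
  ((univ : Finset P).powersetCard 6).filter (fun H => ∀ B ∈ 𝓑, (B ∩ H).card ≤ 3)

theorem hexads_design : IsDesign 3 22 6 1 (hexads 𝓑) := by
  refine ⟨hD.points, fun B hB => (mem_powersetCard.1 (mem_filter.1 hB).1).2, fun T hT => ?_⟩
  have h1 : hex 𝓑 T ∈ hexads 𝓑 := by
    rw [hexads, mem_filter, mem_powersetCard]
    exact ⟨⟨subset_univ _, card_hex hD hint hT⟩, fun B hB => inter_hex hD hint hT hB⟩
  rw [Finset.card_eq_one]
  refine ⟨hex 𝓑 T, ?_⟩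
  ext H
  rw [mem_filter, mem_singleton]
  constructor
  · rintro ⟨hH, hTH⟩
    rw [hexads, mem_filter, mem_powersetCard] at hH
    apply eq_of_subset_of_card_le
    · intro x hx
      rw [hex, mem_union, mem_compl, mem_cov]
      by_contra hc
      rw [not_or, not_not] at hc
      obtain ⟨hxT, B, hB, hTB, hxB⟩ := hc
      have h2 := hH.2 B hB
      have h3 : insert x T ⊆ B ∩ H := by
        rw [insert_subset_iff, mem_inter]
        exact ⟨⟨hxB, hx⟩, subset_inter hTB hTH⟩
      have h4 := card_le_card h3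
      rw [card_insert_of_notMem hxT] at h4
      omega
    · rw [card_hex hD hint hT, hH.1.2]
  · rintro rfl
    exact ⟨h1, subset_union_left⟩

/-- A 3-(22,7,4) design in which two blocks have 1 or 3 common points is the residual of a
Steiner system S(4,7,23). -/
theorem extend : ∃ W : Finset (Finset (Option P)), IsDesign 4 23 7 1 W ∧
    ∀ B : Finset P, B ∈ 𝓑 ↔ B.map Function.Embedding.some ∈ W := by
  have hH := hexads_design hD hint
  have hHc : (hexads 𝓑).card = 77 := by
    have h1 := sum_deg_powersetCard (t := 3) hH.size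
    have hc : ∀ T ∈ (univ : Finset P).powersetCard 3, deg (hexads 𝓑) T = 1 :=
      fun T hT => hH.cover T (mem_powersetCard.1 hT).2
    rw [Finset.sum_congr rfl hc, Finset.sum_const, card_powersetCard, card_univ, hH.points] at h1
    have h2 : (22 : ℕ).choose 3 = 1540 := by decide
    have h3 : (6 : ℕ).choose 3 = 20 := by decide
    rw [h2, h3] at h1
    simp at h1
    omega
  have hBc : 𝓑.card = 176 := by
    obtain ⟨l2, r, -, -, e2, e1, e0⟩ := degs hD (by norm_num) (by norm_num)
    omega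
  have hmi : Function.Injective (fun B : Finset P => B.map Function.Embedding.some) :=
    fun B C h => Finset.map_injective _ h
  have hni : Function.Injective (fun H : Finset P => insertNone H) := fun B C h => by
    have := congrArg eraseNone h
    simpa using this
  set W1 : Finset (Finset (Option P)) := 𝓑.image (fun B => B.map Function.Embedding.some) with hW1
  set W2 : Finset (Finset (Option P)) := (hexads 𝓑).image (fun H => insertNone H) with hW2
  have hdisj : Disjoint W1 W2 := by
    rw [disjoint_left]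
    intro B h1 h2
    rw [hW1, mem_image] at h1
    rw [hW2, mem_image] at h2
    obtain ⟨C, -, rfl⟩ := h1
    obtain ⟨D, -, h⟩ := h2
    have : none ∈ insertNone D := by simp
    rw [h] at this
    simp at this
  refine ⟨W1 ∪ W2, steiner_of_card ?_ ?_ ?_ ?_, ?_⟩
  · rw [Fintype.card_option, hD.points]
  · intro B hB
    rw [mem_union, hW1, hW2, mem_image, mem_image] at hB
    rcases hB with ⟨C, hC, rfl⟩ | ⟨C, hC, rfl⟩
    · rw [card_map, hD.size C hC]
    · rw [card_insertNone, hH.size C hC]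
  · intro B hB C hC hne
    rw [mem_union, hW1, hW2, mem_image, mem_image] at hB hC
    rcases hB with ⟨B, hB, rfl⟩ | ⟨B, hB, rfl⟩ <;> rcases hC with ⟨C, hC, rfl⟩ | ⟨C, hC, rfl⟩
    · rw [← map_inter, card_map]
      have := hint B hB C hC (fun h => hne (by rw [h]))
      omega
    · have : B.map Function.Embedding.some ∩ insertNone C = (B ∩ C).map Function.Embedding.some := by
        ext x
        cases x <;> simp
      rw [this, card_map]
      have := (mem_filter.1 hC).2 B hB
      omega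
    · have : insertNone B ∩ C.map Function.Embedding.some = (C ∩ B).map Function.Embedding.some := by
        ext x
        cases x <;> simp [and_comm]
      rw [this, card_map]
      have := (mem_filter.1 hB).2 C hC
      omega
    · have : insertNone B ∩ insertNone C = insertNone (B ∩ C) := by
        ext x
        cases x <;> simp
      rw [this, card_insertNone]
      have := inter_lt hH hB hC (fun h => hne (by rw [h]))
      omega
  · rw [card_union_of_disjoint hdisj, hW1, hW2, card_image_of_injective _ hmi,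
      card_image_of_injective _ hni, hBc, hHc]
    decide
  · intro B
    rw [mem_union, hW1, hW2, mem_image, mem_image]
    constructor
    · intro hB
      exact Or.inl ⟨B, hB, rfl⟩
    · rintro (⟨C, hC, h⟩ | ⟨C, -, h⟩)
      · rw [← hmi h]
        exact hC
      · exfalso
        have : none ∈ insertNone C := by simp
        rw [h] at this
        simp at this

end Residual

end Pool.Agent.V8H5.QS
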