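import Pool.Agent.V8H5.QS.Named

set_option autoImplicit false

/-! # Uniqueness of the Steiner system `S(4,7,23)` with a marked point -/

namespace Pool.Agent.V8H5.QS

open Finset

/-- four points -/
def core : Finset (Fin 23) := {1, 2, 3, 7}

/-- the points which can be in the block of the four points -/
def rest : Finset (Fin 23) := {15, 16, 18, 19, 21, 22}

/-- the sixteen standard blocks -/
def std16 : List ℕ := 127 :: duads.map (fun t => t.2.2)

theorem core_cover : ∀ a : Fin 23, a ∉ core → a ∉ rest → ∃ m ∈ std16,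
    4 ≤ (toSet m ∩ insert a core).card ∧ ¬ core ⊆ toSet m := by
  decide +kernel

/-- the code of a set containing the four points -/
def code (a b c d e f : Bool) : ℕ := 142 + cond a 32768 0 + cond b 65536 0 + cond c 262144 0 +
  cond d 524288 0 + cond e 2097152 0 + cond f 4194304 0

theorem code_testBit : ∀ a b c d e f : Bool, ∀ i : Fin 23,
    (code a b c d e f).testBit i.val = (decide (i ∈ core) || (decide (i = 15) && a) ||
      (decide (i = 16) && b) || (decide (i = 18) && c) || (decide (i = 19) && d) ||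
      (decide (i = 21) && e) || (decide (i = 22) && f)) := by
  decide +kernel

theorem code_finish : ∀ a b c d e f : Bool, pc 23 (code a b c d e f) = 7 →
    (∀ m ∈ std16, pc 23 (m &&& code a b c d e f) % 2 = 1) →
      code a b c d e f = 4522126 ∨ code a b c d e f = 2654350 := by
  decide +kernel

/-- there are two possibilities for a further block -/
theorem twelfth {𝓦 : Finset (Finset (Fin 23))} (hD : IsDesign 4 23 7 1 𝓦)
    (h : ∀ m ∈ std16, toSet m ∈ 𝓦) : toSet 4522126 ∈ 𝓦 ∨ toSet 2654350 ∈ 𝓦 := by
  obtain ⟨C, h1, h2, -⟩ := exists_block hD core (by decide +kernel)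
  have h3 : C ⊆ core ∪ rest := by
    intro a ha
    by_contra hcon
    rw [mem_union, not_or] at hcon
    obtain ⟨m, m1, m2, m3⟩ := core_cover a hcon.1 hcon.2
    have hne : toSet m ≠ C := by
      rintro rfl
      exact m3 h2
    have h4 := inter_lt hD (h m m1) h1 hne
    have h5 : toSet m ∩ insert a core ⊆ toSet m ∩ C :=
      inter_subset_inter_left (insert_subset_iff.2 ⟨ha, h2⟩)
    have := card_le_card h5
    omega
  have h4 : C = toSet (code (decide (15 ∈ C)) (decide (16 ∈ C)) (decide (18 ∈ C))
      (decide (19 ∈ C)) (decide (21 ∈ C)) (decide (22 ∈ C))) := by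
    ext i
    rw [mem_toSet, code_testBit]
    simp only [Bool.or_eq_true, Bool.and_eq_true, decide_eq_true_eq]
    constructor
    · intro hi
      rcases mem_union.1 (h3 hi) with h' | h'
      · tauto
      · simp only [rest, mem_insert, mem_singleton] at h'
        rcases h' with rfl | rfl | rfl | rfl | rfl | rfl <;> tauto
    · rintro ((((((h' | ⟨rfl, h'⟩) | ⟨rfl, h'⟩) | ⟨rfl, h'⟩) | ⟨rfl, h'⟩) | ⟨rfl, h'⟩) | ⟨rfl, h'⟩)
      · exact h2 h'
      all_goals exact h'
  have h6 := code_finish (decide (15 ∈ C)) (decide (16 ∈ C)) (decide (18 ∈ C))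
      (decide (19 ∈ C)) (decide (21 ∈ C)) (decide (22 ∈ C))
  generalize code (decide (15 ∈ C)) (decide (16 ∈ C)) (decide (18 ∈ C))
      (decide (19 ∈ C)) (decide (21 ∈ C)) (decide (22 ∈ C)) = n at h4 h6
  subst h4
  have h7 := h6 (by rw [← card_toSet]; exact hD.size _ h1) (fun m hm => by
    rw [← card_toSet, toSet_and]
    exact Nat.odd_iff.1 (odd_inter hD h1 (h m hm)))
  rcases h7 with h7 | h7
  · left
    rw [← h7]
    exact h1
  · right
    rw [← h7]
    exact h1

/-- the exchange of the two possibilities -/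
def swp : Fin 23 → Fin 23 :=
  ![0, 1, 2, 3, 5, 4, 6, 7, 9, 8, 10, 12, 11, 13, 17, 18, 19, 14, 15, 16, 20, 22, 21]

theorem swp_swp : ∀ a, swp (swp a) = a := by
  decide +kernel

theorem swp_std : ∀ m ∈ std16, ∃ n ∈ std16, (toSet m).image swp = toSet n := by
  decide +kernel

theorem swp_twelfth : (toSet 4522126).image swp = toSet 2654350 := by
  decide +kernel

section Main

variable {P : Type} [Fintype P] [DecidableEq P] {𝓦 : Finset (Finset P)}

/-- the design obtained on the names -/
theorem pull (hD : IsDesign 4 23 7 1 𝓦) (e : Fin 23 ≃ P) :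
    IsDesign 4 23 7 1 (univ.filter (fun A : Finset (Fin 23) => A.map e.toEmbedding ∈ 𝓦)) := by
  refine hD.iso e.symm ?_
  intro B
  rw [mem_filter, map_symm_map' e B]
  simp

/-- uniqueness of the Steiner system with a marked point -/
theorem exists_iso (hD : IsDesign 4 23 7 1 𝓦) (p : P) : ∃ e : Fin 23 ≃ P, e 0 = p ∧
    ∀ A, A ∈ W0 ↔ A.map e.toEmbedding ∈ 𝓦 := by
  obtain ⟨f, f1, f2, f3, f4⟩ := exists_naming hD p
  have hbij : Function.Bijective f := by
    rw [Fintype.bijective_iff_injective_and_card]
    exact ⟨f1, by rw [hD.points, Fintype.card_fin]⟩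
  let e : Fin 23 ≃ P := Equiv.ofBijective f hbij
  have he : ∀ A : Finset (Fin 23), A.map e.toEmbedding = A.image f := by
    intro A
    rw [map_eq_image]
    rfl
  have h16 : ∀ m ∈ std16, (toSet m).map e.toEmbedding ∈ 𝓦 := by
    intro m hm
    rw [he]
    rw [std16, List.mem_cons, List.mem_map] at hm
    rcases hm with rfl | ⟨t, ht, rfl⟩
    · exact f3
    · exact f4 t ht
  -- it suffices to have seventeen blocks
  have fin : ∀ e : Fin 23 ≃ P, e 0 = p → (∀ m ∈ std16, (toSet m).map e.toEmbedding ∈ 𝓦) →
      (toSet 4522126).map e.toEmbedding ∈ 𝓦 → ∃ e : Fin 23 ≃ P, e 0 = p ∧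
        ∀ A, A ∈ W0 ↔ A.map e.toEmbedding ∈ 𝓦 := by
    intro e he0 h1 h2
    refine ⟨e, he0, ?_⟩
    have h3 := unique_of_std (pull hD e) (by
      intro m hm
      rw [mem_filter]
      refine ⟨mem_univ _, ?_⟩
      have hs : std = std16 ++ [4522126] := by decide +kernel
      rw [hs, List.mem_append, List.mem_singleton] at hm
      rcases hm with hm | rfl
      · exact h1 m hm
      · exact h2)
    intro A
    rw [← h3, mem_filter]
    simp
  rcases twelfth (pull hD e) (fun m hm => mem_filter.2 ⟨mem_univ _, h16 m hm⟩) with h | h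
  · exact fin e f2 h16 (mem_filter.1 h).2
  · rw [mem_filter] at h
    let s : Fin 23 ≃ Fin 23 := ⟨swp, swp, swp_swp, swp_swp⟩
    have hs : ∀ A : Finset (Fin 23), A.map (s.trans e).toEmbedding =
        (A.image swp).map e.toEmbedding := by
      intro A
      rw [map_eq_image, map_eq_image, image_image]
      rfl
    refine fin (s.trans e) ?_ ?_ ?_
    · exact f2
    · intro m hm
      obtain ⟨n, hn, hmn⟩ := swp_std m hm
      rw [hs, hmn]
      exact h16 n hn
    · rw [hs, swp_twelfth]
      exact h.2

end Main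

end Pool.Agent.V8H5.QS
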